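import Pool.Agent.H45.OddReal

/-!
Specialising the coefficients of the relation, one variable at a time.
-/

set_option linter.style.haveILetI false

namespace Pool.Agent.H45

open IsDedekindDomain

/-- sums of two squares -/
def S2 {E : Type} [Field E] (x : E) : Prop := ∃ p q : E, x = p ^ 2 + q ^ 2

/-- A place above the rational point `X = c`. -/
theorem place_at {κ : Type} [Field κ] [CharZero κ] {E : Type} [Field E]
    [Algebra (RatFunc κ) E] (hfin : Odd (Module.finrank (RatFunc κ) E)) (c : κ) :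
    PlaceData κ E fun _ _ P => algebraMap (RatFunc κ) E RatFunc.X ∈ P.O ∧
      P.rs (algebraMap (RatFunc κ) E RatFunc.X) = P.rs (algebraMap (RatFunc κ) E (RatFunc.C c)) ∧
      Odd (P.ord (algebraMap (RatFunc κ) E RatFunc.X - algebraMap (RatFunc κ) E (RatFunc.C c))) := by
  have hne : algebraMap (RatFunc κ) E RatFunc.X - algebraMap (RatFunc κ) E (RatFunc.C c) ≠ 0 := by
    rw [← map_sub, Ne, FaithfulSMul.algebraMap_eq_zero_iff, ← RatFunc.algebraMap_X,
      ← RatFunc.algebraMap_C, ← map_sub, FaithfulSMul.algebraMap_eq_zero_iff]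
    exact Polynomial.X_sub_C_ne_zero c
  obtain ⟨k, i1, i2, P, h1, h2, h3⟩ := exists_place hfin _ hne
  set x := algebraMap (RatFunc κ) E RatFunc.X with hx
  set c' := algebraMap (RatFunc κ) E (RatFunc.C c) with hc'
  have hx0 : x ≠ 0 := by
    rw [hx, Ne, FaithfulSMul.algebraMap_eq_zero_iff]
    exact RatFunc.X_ne_zero
  have hc'O : c' ∈ P.O := (h2 c).1
  have h3' : Odd (P.ord (x - c') + P.pole x) := h3
  by_cases hxO : x ∈ P.O
  · have hpole : P.pole x = 0 := by simp [Pl.pole, hxO]
    rw [hpole, add_zero] at h3'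
    have hdO : x - c' ∈ P.O := P.O.sub_mem hxO hc'O
    have hpos : 0 < P.ord (x - c') := by
      have := P.ord_nonneg_of_mem hdO hne
      rcases h3' with ⟨r, hr⟩
      omega
    refine ⟨k, i1, i2, P, h1, h2, hxO, ?_, h3'⟩
    have h4 := P.rs_eq_zero_of_ord_pos (x := x - c') fun _ => hpos
    have h5 : x - c' + c' = x := by ring
    have h6 := P.rs_add hdO hc'O
    rw [h5, h4, zero_add] at h6
    exact h6
  · exfalso
    have hpole : P.pole x = P.ord x := by simp [Pl.pole, hxO]
    have hneg : P.ord x < 0 := by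
      by_contra hc
      exact hxO ((P.mem_iff hx0).2 (not_lt.1 hc))
    have h4 : P.ord (x - c') = P.ord x := by
      apply le_antisymm
      · -- ord (x - c') ≤ ord x
        by_contra hlt
        push Not at hlt
        have h5 : x - c' + c' ≠ 0 := by
          have : x - c' + c' = x := by ring
          rw [this]
          exact hx0
        have h6 := P.le_ord_add (n := P.ord x + 1) (x := x - c') (y := c') (fun _ => by omega)
          (fun hc0 => by
            have := P.ord_nonneg_of_mem hc'O hc0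
            omega) h5
        have h7 : x - c' + c' = x := by ring
        rw [h7] at h6
        omega
      · have h5 : x + -c' ≠ 0 := by
          rw [← sub_eq_add_neg]
          exact hne
        have h6 := P.le_ord_add (n := P.ord x) (x := x) (y := -c') (fun _ => le_refl _)
          (fun hc0 => by
            have := P.ord_nonneg_of_mem (P.O.neg_mem hc'O) hc0
            omega) h5
        rw [← sub_eq_add_neg] at h6
        exact h6
    rw [h4, hpole] at h3'
    rcases h3' with ⟨r, hr⟩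
    omega

/-- A place above the point at infinity. -/
theorem place_inf {κ : Type} [Field κ] [CharZero κ] {E : Type} [Field E]
    [Algebra (RatFunc κ) E] (hfin : Odd (Module.finrank (RatFunc κ) E)) :
    PlaceData κ E fun _ _ P => (algebraMap (RatFunc κ) E RatFunc.X)⁻¹ ∈ P.O ∧
      P.rs (algebraMap (RatFunc κ) E RatFunc.X)⁻¹ = 0 ∧
      Odd (P.ord (algebraMap (RatFunc κ) E RatFunc.X)⁻¹) := by
  obtain ⟨k, i1, i2, P, h1, h2, h3⟩ := exists_place hfin (1 : E) one_ne_zero
  set x := algebraMap (RatFunc κ) E RatFunc.X with hx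
  have hx0 : x ≠ 0 := by
    rw [hx, Ne, FaithfulSMul.algebraMap_eq_zero_iff]
    exact RatFunc.X_ne_zero
  have h3' : Odd (P.ord 1 + P.pole x) := h3
  rw [P.ord_one, zero_add] at h3'
  by_cases hxO : x ∈ P.O
  · have hpole : P.pole x = 0 := by simp [Pl.pole, hxO]
    rw [hpole] at h3'
    exact absurd h3' (by decide)
  · have hpole : P.pole x = P.ord x := by simp [Pl.pole, hxO]
    have hneg : P.ord x < 0 := by
      by_contra hc
      exact hxO ((P.mem_iff hx0).2 (not_lt.1 hc))
    rw [hpole] at h3'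
    have hi : 0 < P.ord x⁻¹ := by rw [P.ord_inv hx0]; omega
    refine ⟨k, i1, i2, P, h1, h2, (P.mem_iff (inv_ne_zero hx0)).2 hi.le,
      P.rs_eq_zero_of_ord_pos fun _ => hi, ?_⟩
    rw [P.ord_inv hx0]
    exact h3'.neg

theorem rs_ratCast_aux {E k : Type} [Field E] [Field k] [CharZero E] [CharZero k] (P : Pl E k) (n : ℕ) :
    (n : E) ∈ P.O ∧ P.rs (n : E) = n := by
  induction n with
  | zero =>
    rw [Nat.cast_zero, Nat.cast_zero]
    exact ⟨P.O.zero_mem, P.rs_zero⟩
  | succ n ih =>
    push_cast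
    exact ⟨P.O.add_mem ih.1 P.O.one_mem, by rw [P.rs_add ih.1 P.O.one_mem, ih.2, P.rs_one]⟩

/-- rational constants reduce to themselves -/
theorem rs_rat {E k : Type} [Field E] [Field k] [CharZero E] [CharZero k] (P : Pl E k) (r : ℚ) :
    (r : E) ∈ P.O ∧ P.rs (r : E) = r := by
  have hnat : ∀ n : ℕ, n ≠ 0 → ((n : E))⁻¹ ∈ P.O ∧ P.rs ((n : E))⁻¹ = ((n : k))⁻¹ := by
    intro n hn
    have hnE : (n : E) ≠ 0 := by exact_mod_cast hn
    have hnk : (n : k) ≠ 0 := by exact_mod_cast hn
    obtain ⟨h1, h2⟩ := rs_ratCast_aux P n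
    have h3 : P.rs (n : E) ≠ 0 := by rw [h2]; exact hnk
    have h4 := P.ord_eq_zero_of_rs_ne h1 h3
    have h5 : ((n : E))⁻¹ ∈ P.O := (P.mem_iff (inv_ne_zero hnE)).2 (by rw [P.ord_inv hnE]; omega)
    refine ⟨h5, ?_⟩
    have h6 := P.rs_mul h1 h5
    rw [mul_inv_cancel₀ hnE, P.rs_one, h2] at h6
    exact eq_inv_of_mul_eq_one_right h6.symm
  obtain ⟨h1, h2⟩ := hnat r.den r.den_ne_zero
  have hint : ∀ z : ℤ, (z : E) ∈ P.O ∧ P.rs (z : E) = z := by
    intro z
    cases z with
    | ofNat n => simpa using rs_ratCast_aux P n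
    | negSucc n =>
      obtain ⟨h3, h4⟩ := rs_ratCast_aux P (n + 1)
      rw [Int.cast_negSucc, Int.cast_negSucc]
      exact ⟨P.O.neg_mem h3, by rw [P.rs_neg h3, h4]⟩
  obtain ⟨h3, h4⟩ := hint r.num
  have h5 : (r : E) = (r.num : E) * ((r.den : E))⁻¹ := by
    rw [← div_eq_mul_inv]
    exact_mod_cast (congrArg (fun q : ℚ => (q : E)) (Rat.num_div_den r)).symm
  have h6 : (r : k) = (r.num : k) * ((r.den : k))⁻¹ := by
    rw [← div_eq_mul_inv]
    exact_mod_cast (congrArg (fun q : ℚ => (q : k)) (Rat.num_div_den r)).symm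
  rw [h5, h6]
  exact ⟨P.O.mul_mem h3 h1, by rw [P.rs_mul h3 h1, h4, h2]⟩

end Pool.Agent.H45
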