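import Pool.Agent.H45.Level

/-!
Relations over odd degree extensions of `ℚ(v)`.
-/

set_option linter.style.haveILetI false

namespace Pool.Agent.H45

open IsDedekindDomain

theorem rs_nat' {E k : Type} [Field E] [Field k] [CharZero E] [CharZero k] (P : Pl E k) (n : ℕ)
    [n.AtLeastTwo] : (OfNat.ofNat n : E) ∈ P.O ∧ P.rs (OfNat.ofNat n : E) = OfNat.ofNat n := by
  have h := rs_ratCast_aux P (OfNat.ofNat n)
  rw [Nat.cast_ofNat, Nat.cast_ofNat] at h
  exact h

instance fact7 : Fact (Nat.Prime 7) := ⟨by norm_num⟩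
instance fact3 : Fact (Nat.Prime 3) := ⟨by norm_num⟩

theorem charZero_of_algebra {F E : Type} [Field F] [Field E] [CharZero F] [Algebra F E] :
    CharZero E := (RingHom.charZero_iff (algebraMap F E).injective).1 inferInstance

theorem not_S2_seven {E : Type} [Field E] [Algebra ℚ E] (hodd : Odd (Module.finrank ℚ E)) (z : E)
    (hz : z ≠ 0) : ¬ S2 (7 * z ^ 2) := by
  rintro ⟨p, q, h⟩
  have := not_two_sq 7 (by norm_num) 1 (by norm_num) hodd z hz p q
  apply this
  push_cast
  rw [← h]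
  try ring

theorem not_S2_three {E : Type} [Field E] [Algebra ℚ E] (hodd : Odd (Module.finrank ℚ E)) (z : E)
    (hz : z ≠ 0) : ¬ S2 (3 * z ^ 2) := by
  rintro ⟨p, q, h⟩
  have := not_two_sq 3 (by norm_num) 1 (by norm_num) hodd z hz p q
  apply this
  push_cast
  rw [← h]
  try ring

theorem not_S2_21 {E : Type} [Field E] [Algebra ℚ E] (hodd : Odd (Module.finrank ℚ E)) (z : E)
    (hz : z ≠ 0) : ¬ S2 (21 * z ^ 2) := by
  rintro ⟨p, q, h⟩
  have := not_two_sq 7 (by norm_num) 3 (by norm_num) hodd z hz p q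
  apply this
  push_cast
  rw [← h]
  try ring

section

variable {E : Type} [Field E] [Algebra (RatFunc ℚ) E] (hodd : Odd (Module.finrank (RatFunc ℚ) E))

include hodd

/-- `v * D₂ + D₃ = 0` is impossible -/
theorem L1c (D : Fin 4 → E) (hD : ∀ i, SSq (D i)) (hne : ∃ i, D i ≠ 0) (h0 : D 0 = 0) (h1 : D 1 = 0)
    (hrel : algebraMap (RatFunc ℚ) E RatFunc.X * D 2 + D 3 = 0) : False := by
  obtain ⟨k, i1, i2, P, hk, hC, hv, hrv, hov⟩ := place_at hodd (0 : ℚ)
  set v := algebraMap (RatFunc ℚ) E RatFunc.X with hvdef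
  have hv0 : v ≠ 0 := by
    rw [hvdef, Ne, FaithfulSMul.algebraMap_eq_zero_iff]
    exact RatFunc.X_ne_zero
  rw [map_zero, map_zero, sub_zero] at hov
  have hFR : FR k := OR_rat k hk
  obtain ⟨s, D', hD', ⟨j, hj⟩, hε, hz, hr, -⟩ := spec P hFR (fun _ => 1) (fun _ => P.O.one_mem)
    ![false, false, true, false] v hv0 hov D hD hne (by
      simp only [Fin.sum_univ_four, Matrix.cons_val_zero, Matrix.cons_val_one, Matrix.cons_val,
        Bool.false_eq_true, if_false, if_true, h0, h1]
      linear_combination hrel)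
  have z0 := hz 0 h0
  have z1 := hz 1 h1
  simp only [Fin.sum_univ_four, P.rs_one, z0, z1] at hr
  cases s with
  | true =>
    have e3 := hε 3 (by simp)
    rw [e3] at hr
    have e2 : D' 2 = 0 := by linear_combination hr
    fin_cases j
    · exact hj z0
    · exact hj z1
    · exact hj e2
    · exact hj e3
  | false =>
    have e2 := hε 2 (by simp)
    rw [e2] at hr
    have e3 : D' 3 = 0 := by linear_combination hr
    fin_cases j
    · exact hj z0
    · exact hj z1
    · exact hj e2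
    · exact hj e3

/-- `-(7 v + 1) D₀ + v D₂ + D₃ = 0` at infinity -/
theorem L1a_inf (D : Fin 4 → E) (hD : ∀ i, SSq (D i)) (hne : ∃ i, D i ≠ 0) (h1 : D 1 = 0)
    (hrel : -(7 * algebraMap (RatFunc ℚ) E RatFunc.X + 1) * D 0
      + algebraMap (RatFunc ℚ) E RatFunc.X * D 2 + D 3 = 0) :
    D 0 ≠ 0 ∧ D 2 ≠ 0 ∧ ¬ S2 (D 0 * D 2) := by
  haveI : CharZero (RatFunc ℚ) := charZero_of_algebra (F := ℚ)
  haveI : CharZero E := charZero_of_algebra (F := RatFunc ℚ)
  obtain ⟨k, i1, i2, P, hk, hC, hw, hrw, how⟩ := place_inf hodd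
  haveI : CharZero k := charZero_of_algebra (F := ℚ)
  set v := algebraMap (RatFunc ℚ) E RatFunc.X with hvdef
  have hv0 : v ≠ 0 := by
    rw [hvdef, Ne, FaithfulSMul.algebraMap_eq_zero_iff]
    exact RatFunc.X_ne_zero
  have hFR : FR k := OR_rat k hk
  obtain ⟨h7m, h7r⟩ := rs_nat' P 7
  have hb0 : -(7 + v⁻¹) ∈ P.O := P.O.neg_mem (P.O.add_mem h7m hw)
  have hb0r : P.rs (-(7 + v⁻¹)) = -7 := by
    rw [P.rs_neg (P.O.add_mem h7m hw), P.rs_add h7m hw, h7r, hrw, add_zero]
  obtain ⟨s, D', hD', ⟨j, hj⟩, hε, hz, hr, hprod⟩ := spec P hFR ![-(7 + v⁻¹), 1, 1, 1]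
    (by
      intro i
      fin_cases i
      · exact hb0
      · exact P.O.one_mem
      · exact P.O.one_mem
      · exact P.O.one_mem)
    ![false, false, false, true] v⁻¹ (inv_ne_zero hv0) how D hD hne (by
      simp only [Fin.sum_univ_four, Matrix.cons_val_zero, Matrix.cons_val_one, Matrix.cons_val,
        Bool.false_eq_true, if_false, if_true, h1]
      field_simp
      linear_combination hrel)
  have z1 := hz 1 h1
  simp only [Fin.sum_univ_four, Matrix.cons_val_zero, Matrix.cons_val_one, Matrix.cons_val,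
    P.rs_one, hb0r, z1] at hr
  cases s with
  | true =>
    exfalso
    have e0 := hε 0 (by simp)
    have e2 := hε 2 (by simp)
    rw [e0, e2] at hr
    have e3 : D' 3 = 0 := by linear_combination hr
    fin_cases j
    · exact hj e0
    · exact hj z1
    · exact hj e2
    · exact hj e3
  | false =>
    have e3 := hε 3 (by simp)
    rw [e3] at hr
    have e2 : D' 2 = 7 * D' 0 := by linear_combination hr
    have hne0 : D' 0 ≠ 0 := by
      intro e0
      rw [e0, mul_zero] at e2
      fin_cases j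
      · exact hj e0
      · exact hj z1
      · exact hj e2
      · exact hj e3
    have hne2 : D' 2 ≠ 0 := by
      rw [e2]
      exact mul_ne_zero (by norm_num) hne0
    refine ⟨fun h => hne0 (hz 0 h), fun h => hne2 (hz 2 h), ?_⟩
    rintro ⟨p, q, hpq⟩
    obtain ⟨p', q', hpq'⟩ := hprod 0 2 p q hpq
    refine not_S2_seven hk (D' 0) hne0 ⟨p', q', ?_⟩
    rw [← hpq', e2]
    ring

/-- `-(7 v + 1) D₀ + v D₂ + D₃ = 0` at `v = -1/7` -/
theorem L1a_fin (D : Fin 4 → E) (hD : ∀ i, SSq (D i)) (hne : ∃ i, D i ≠ 0) (h1 : D 1 = 0)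
    (hrel : -(7 * algebraMap (RatFunc ℚ) E RatFunc.X + 1) * D 0
      + algebraMap (RatFunc ℚ) E RatFunc.X * D 2 + D 3 = 0) :
    D 2 ≠ 0 ∧ D 3 ≠ 0 ∧ ¬ S2 (D 2 * D 3) := by
  haveI : CharZero (RatFunc ℚ) := charZero_of_algebra (F := ℚ)
  haveI : CharZero E := charZero_of_algebra (F := RatFunc ℚ)
  obtain ⟨k, i1, i2, P, hk, hC, hv, hrv, hov⟩ := place_at hodd (-1/7 : ℚ)
  haveI : CharZero k := charZero_of_algebra (F := ℚ)
  rw [(hC _).2] at hrv
  set v := algebraMap (RatFunc ℚ) E RatFunc.X with hvdef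
  have hc : algebraMap (RatFunc ℚ) E (RatFunc.C (-1/7 : ℚ)) = -1/7 := by
    rw [map_div₀, map_div₀, map_neg, map_neg, map_one, map_one, map_ofNat, map_ofNat]
  rw [hc] at hov
  have hrv' : P.rs v = -1/7 := by
    rw [hrv]
    simp
  have hv0 : v - -1/7 ≠ 0 := by
    intro h0
    have h2 : v = algebraMap (RatFunc ℚ) E (RatFunc.C (-1/7 : ℚ)) := by
      rw [hc]
      linear_combination h0
    rw [hvdef] at h2
    have h3 := (algebraMap (RatFunc ℚ) E).injective h2
    rw [← RatFunc.algebraMap_X, ← RatFunc.algebraMap_C] at h3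
    have h4 := RatFunc.algebraMap_injective ℚ h3
    have h5 := congrArg (Polynomial.eval 0) h4
    norm_num at h5
  have hFR : FR k := OR_rat k hk
  obtain ⟨h7m, h7r⟩ := rs_nat' P 7
  obtain ⟨s, D', hD', ⟨j, hj⟩, hε, hz, hr, hprod⟩ := spec P hFR ![-7, 1, v, 1]
    (by
      intro i
      fin_cases i
      · exact P.O.neg_mem h7m
      · exact P.O.one_mem
      · exact hv
      · exact P.O.one_mem)
    ![true, false, false, false] (v - -1/7) hv0 hov D hD hne (by
      simp only [Fin.sum_univ_four, Matrix.cons_val_zero, Matrix.cons_val_one, Matrix.cons_val,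
        Bool.false_eq_true, if_false, if_true, h1]
      linear_combination hrel)
  have z1 := hz 1 h1
  simp only [Fin.sum_univ_four, Matrix.cons_val_zero, Matrix.cons_val_one, Matrix.cons_val,
    P.rs_one, P.rs_neg h7m, h7r, hrv', z1] at hr
  cases s with
  | true =>
    exfalso
    have e2 := hε 2 (by simp)
    have e3 := hε 3 (by simp)
    rw [e2, e3] at hr
    have e0 : D' 0 = 0 := by
      have : (-7 : k) * D' 0 = 0 := by linear_combination hr
      exact (mul_eq_zero.1 this).resolve_left (by norm_num)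
    fin_cases j
    · exact hj e0
    · exact hj z1
    · exact hj e2
    · exact hj e3
  | false =>
    have e0 := hε 0 (by simp)
    rw [e0] at hr
    have e2 : D' 2 = 7 * D' 3 := by linear_combination (-7) * hr
    have hne3 : D' 3 ≠ 0 := by
      intro e3
      rw [e3, mul_zero] at e2
      fin_cases j
      · exact hj e0
      · exact hj z1
      · exact hj e2
      · exact hj e3
    have hne2 : D' 2 ≠ 0 := by
      rw [e2]
      exact mul_ne_zero (by norm_num) hne3
    refine ⟨fun h => hne2 (hz 2 h), fun h => hne3 (hz 3 h), ?_⟩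
    rintro ⟨p, q, hpq⟩
    obtain ⟨p', q', hpq'⟩ := hprod 2 3 p q hpq
    refine not_S2_seven hk (D' 3) hne3 ⟨p', q', ?_⟩
    rw [← hpq', e2]
    ring

/-- `-(7 v + 1) D₁ + 3 v D₂ + 3 D₃ = 0` at infinity -/
theorem L1b_inf (D : Fin 4 → E) (hD : ∀ i, SSq (D i)) (hne : ∃ i, D i ≠ 0) (h0 : D 0 = 0)
    (hrel : -(7 * algebraMap (RatFunc ℚ) E RatFunc.X + 1) * D 1
      + 3 * algebraMap (RatFunc ℚ) E RatFunc.X * D 2 + 3 * D 3 = 0) :
    ¬ S2 (D 1 * D 2) := by
  haveI : CharZero (RatFunc ℚ) := charZero_of_algebra (F := ℚ)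
  haveI : CharZero E := charZero_of_algebra (F := RatFunc ℚ)
  obtain ⟨k, i1, i2, P, hk, hC, hw, hrw, how⟩ := place_inf hodd
  haveI : CharZero k := charZero_of_algebra (F := ℚ)
  set v := algebraMap (RatFunc ℚ) E RatFunc.X with hvdef
  have hv0 : v ≠ 0 := by
    rw [hvdef, Ne, FaithfulSMul.algebraMap_eq_zero_iff]
    exact RatFunc.X_ne_zero
  have hFR : FR k := OR_rat k hk
  obtain ⟨h7m, h7r⟩ := rs_nat' P 7
  obtain ⟨h3m, h3r⟩ := rs_nat' P 3
  have hb0 : -(7 + v⁻¹) ∈ P.O := P.O.neg_mem (P.O.add_mem h7m hw)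
  have hb0r : P.rs (-(7 + v⁻¹)) = -7 := by
    rw [P.rs_neg (P.O.add_mem h7m hw), P.rs_add h7m hw, h7r, hrw, add_zero]
  obtain ⟨s, D', hD', ⟨j, hj⟩, hε, hz, hr, hprod⟩ := spec P hFR ![1, -(7 + v⁻¹), 3, 3]
    (by
      intro i
      fin_cases i
      · exact P.O.one_mem
      · exact hb0
      · exact h3m
      · exact h3m)
    ![false, false, false, true] v⁻¹ (inv_ne_zero hv0) how D hD hne (by
      simp only [Fin.sum_univ_four, Matrix.cons_val_zero, Matrix.cons_val_one, Matrix.cons_val,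
        Bool.false_eq_true, if_false, if_true, h0]
      field_simp
      linear_combination hrel)
  have z0 := hz 0 h0
  simp only [Fin.sum_univ_four, Matrix.cons_val_zero, Matrix.cons_val_one, Matrix.cons_val,
    P.rs_one, hb0r, h3r, z0] at hr
  cases s with
  | true =>
    exfalso
    have e1 := hε 1 (by simp)
    have e2 := hε 2 (by simp)
    rw [e1, e2] at hr
    have e3 : D' 3 = 0 := by
      have : (3 : k) * D' 3 = 0 := by linear_combination hr
      exact (mul_eq_zero.1 this).resolve_left (by norm_num)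
    fin_cases j
    · exact hj z0
    · exact hj e1
    · exact hj e2
    · exact hj e3
  | false =>
    have e3 := hε 3 (by simp)
    rw [e3] at hr
    have e2 : D' 2 = 7 * (D' 1 / 3) := by linear_combination hr / 3
    have hne1 : D' 1 ≠ 0 := by
      intro e1
      rw [e1, zero_div, mul_zero] at e2
      fin_cases j
      · exact hj z0
      · exact hj e1
      · exact hj e2
      · exact hj e3
    rintro ⟨p, q, hpq⟩
    obtain ⟨p', q', hpq'⟩ := hprod 1 2 p q hpq
    refine not_S2_21 hk (D' 1 / 3) (div_ne_zero hne1 (by norm_num)) ⟨p', q', ?_⟩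
    rw [← hpq', e2]
    ring

/-- `-3 D₀ + D₁ = 0` -/
theorem L1d (D : Fin 4 → E) (hD : ∀ i, SSq (D i)) (hne : ∃ i, D i ≠ 0) (h2 : D 2 = 0) (h3 : D 3 = 0)
    (hrel : -3 * D 0 + D 1 = 0) : ¬ S2 (D 0 * D 1) := by
  haveI : CharZero (RatFunc ℚ) := charZero_of_algebra (F := ℚ)
  haveI : CharZero E := charZero_of_algebra (F := RatFunc ℚ)
  obtain ⟨k, i1, i2, P, hk, hC, -⟩ := place_at hodd (0 : ℚ)
  haveI : CharZero k := charZero_of_algebra (F := ℚ)
  have hFR : FR k := OR_rat k hk
  obtain ⟨h3m, h3r⟩ := rs_nat' P 3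
  obtain ⟨s, D', hD', ⟨j, hj⟩, hε, hz, hr, hprod⟩ := spec P hFR ![-3, 1, 1, 1]
    (by
      intro i
      fin_cases i
      · exact P.O.neg_mem h3m
      · exact P.O.one_mem
      · exact P.O.one_mem
      · exact P.O.one_mem)
    (fun _ => false) P.unif P.unif_ne (by rw [P.ord_unif]; decide) D hD hne (by
      simp only [Fin.sum_univ_four, Matrix.cons_val_zero, Matrix.cons_val_one, Matrix.cons_val,
        Bool.false_eq_true, if_false, h2, h3]
      linear_combination hrel)
  have z2 := hz 2 h2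
  have z3 := hz 3 h3
  simp only [Fin.sum_univ_four, Matrix.cons_val_zero, Matrix.cons_val_one, Matrix.cons_val,
    P.rs_one, P.rs_neg h3m, h3r, z2, z3] at hr
  cases s with
  | true =>
    exact absurd (hε j (by simp)) hj
  | false =>
    have e1 : D' 1 = 3 * D' 0 := by linear_combination hr
    have hne0 : D' 0 ≠ 0 := by
      intro e0
      rw [e0, mul_zero] at e1
      fin_cases j
      · exact hj e0
      · exact hj e1
      · exact hj z2
      · exact hj z3
    rintro ⟨p, q, hpq⟩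
    obtain ⟨p', q', hpq'⟩ := hprod 0 1 p q hpq
    refine not_S2_three hk (D' 0) hne0 ⟨p', q', ?_⟩
    rw [← hpq', e1]
    ring

end

end Pool.Agent.H45
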