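import Pool.Agent.H45.Level1

/-!
Relations over odd degree extensions of `ℚ(v)(u)`.
-/

set_option linter.style.haveILetI false

namespace Pool.Agent.H45

open IsDedekindDomain

/-- the field `ℚ(v)` -/
abbrev F1 := RatFunc ℚ
/-- the field `ℚ(v)(u)` -/
abbrev F2 := RatFunc F1

instance charZero_F1 : CharZero F1 := charZero_of_algebra (F := ℚ) (E := F1)
instance charZero_F2 : CharZero F2 := charZero_of_algebra (F := F1) (E := F2)

theorem OR_F1 : OR F1 := OR_ratFunc OR_rat
theorem OR_F2 : OR F2 := OR_ratFunc OR_F1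

/-- the coefficients `-(3 u + 7 v + 1), u, v, 1` -/
noncomputable def coef : Fin 4 → F2 :=
  ![-(3 * RatFunc.X + 7 * RatFunc.C (RatFunc.X : F1) + 1), RatFunc.X, RatFunc.C (RatFunc.X : F1), 1]

section

variable {E : Type} [Field E] [Algebra F2 E] (hodd : Odd (Module.finrank F2 E))

include hodd

theorem L2_zero (D : Fin 4 → E) (hD : ∀ i, SSq (D i)) (hne : ∃ i, D i ≠ 0)
    (hrel : ∑ i, algebraMap F2 E (coef i) * D i = 0) :
    D 0 ≠ 0 ∧ D 2 ≠ 0 ∧ D 3 ≠ 0 ∧ ¬ S2 (D 0 * D 2) ∧ ¬ S2 (D 2 * D 3) := by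
  haveI : CharZero E := charZero_of_algebra (F := F2)
  obtain ⟨k, i1, i2, P, hk, hC, hu, hru, hou⟩ := place_at hodd (0 : F1)
  haveI : CharZero k := charZero_of_algebra (F := F1)
  rw [(hC _).2, map_zero] at hru
  rw [map_zero, map_zero, sub_zero] at hou
  obtain ⟨hvm, hvr⟩ := hC RatFunc.X
  simp only [coef, Fin.sum_univ_four, Matrix.cons_val_zero, Matrix.cons_val_one,
    Matrix.cons_val, map_neg, map_add, map_mul, map_one, map_ofNat] at hrel
  set u := algebraMap F2 E RatFunc.X with hudef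
  set v := algebraMap F2 E (RatFunc.C RatFunc.X) with hvdef
  have hu0 : u ≠ 0 := by
    rw [hudef, Ne, FaithfulSMul.algebraMap_eq_zero_iff]
    exact RatFunc.X_ne_zero
  have hFR : FR k := OR_F1 k hk
  obtain ⟨h7m, h7r⟩ := rs_nat' P 7
  obtain ⟨h3m, h3r⟩ := rs_nat' P 3
  have m1 : 3 * u ∈ P.O := P.O.mul_mem h3m hu
  have m2 : 7 * v ∈ P.O := P.O.mul_mem h7m hvm
  have m3 : 3 * u + 7 * v ∈ P.O := P.O.add_mem m1 m2
  have m4 : 3 * u + 7 * v + 1 ∈ P.O := P.O.add_mem m3 P.O.one_mem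
  have hr0 : P.rs (-(3 * u + 7 * v + 1)) = -(7 * algebraMap F1 k RatFunc.X + 1) := by
    rw [P.rs_neg m4, P.rs_add m3 P.O.one_mem, P.rs_add m1 m2, P.rs_mul h3m hu, P.rs_mul h7m hvm,
      h3r, h7r, hru, hvr, P.rs_one]
    ring
  obtain ⟨s, D', hD', hne', hε, hz, hr, hprod⟩ := spec P hFR ![-(3 * u + 7 * v + 1), 1, v, 1]
    (by
      intro i
      fin_cases i
      · exact P.O.neg_mem m4
      · exact P.O.one_mem
      · exact hvm
      · exact P.O.one_mem)
    ![false, true, false, false] u hu0 hou D hD hne (by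
      simp only [Fin.sum_univ_four, Matrix.cons_val_zero, Matrix.cons_val_one, Matrix.cons_val,
        Bool.false_eq_true, if_false, if_true]
      linear_combination hrel)
  simp only [Fin.sum_univ_four, Matrix.cons_val_zero, Matrix.cons_val_one, Matrix.cons_val,
    P.rs_one, hr0, hvr] at hr
  cases s with
  | true =>
    exfalso
    have e0 := hε 0 (by simp)
    have e2 := hε 2 (by simp)
    have e3 := hε 3 (by simp)
    rw [e0, e2, e3] at hr
    have e1 : D' 1 = 0 := by linear_combination hr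
    obtain ⟨j, hj⟩ := hne'
    fin_cases j
    · exact hj e0
    · exact hj e1
    · exact hj e2
    · exact hj e3
  | false =>
    have e1 := hε 1 (by simp)
    rw [e1] at hr
    have hrel' : -(7 * algebraMap F1 k RatFunc.X + 1) * D' 0
        + algebraMap F1 k RatFunc.X * D' 2 + D' 3 = 0 := by linear_combination hr
    obtain ⟨a1, a2, a3⟩ := L1a_inf hk D' hD' hne' e1 hrel'
    obtain ⟨b1, b2, b3⟩ := L1a_fin hk D' hD' hne' e1 hrel'
    refine ⟨fun h => a1 (hz 0 h), fun h => a2 (hz 2 h), fun h => b2 (hz 3 h), ?_, ?_⟩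
    · rintro ⟨p, q, hpq⟩
      obtain ⟨p', q', hpq'⟩ := hprod 0 2 p q hpq
      exact a3 ⟨p', q', hpq'⟩
    · rintro ⟨p, q, hpq⟩
      obtain ⟨p', q', hpq'⟩ := hprod 2 3 p q hpq
      exact b3 ⟨p', q', hpq'⟩

theorem L2_inf (D : Fin 4 → E) (hD : ∀ i, SSq (D i)) (hne : ∃ i, D i ≠ 0)
    (hrel : ∑ i, algebraMap F2 E (coef i) * D i = 0) :
    D 1 ≠ 0 ∧ ¬ S2 (D 0 * D 1) := by
  haveI : CharZero E := charZero_of_algebra (F := F2)
  obtain ⟨k, i1, i2, P, hk, hC, hw, hrw, how⟩ := place_inf hodd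
  haveI : CharZero k := charZero_of_algebra (F := F1)
  obtain ⟨hvm, hvr⟩ := hC RatFunc.X
  simp only [coef, Fin.sum_univ_four, Matrix.cons_val_zero, Matrix.cons_val_one,
    Matrix.cons_val, map_neg, map_add, map_mul, map_one, map_ofNat] at hrel
  set u := algebraMap F2 E RatFunc.X with hudef
  set v := algebraMap F2 E (RatFunc.C RatFunc.X) with hvdef
  have hu0 : u ≠ 0 := by
    rw [hudef, Ne, FaithfulSMul.algebraMap_eq_zero_iff]
    exact RatFunc.X_ne_zero
  have hFR : FR k := OR_F1 k hk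
  obtain ⟨h7m, h7r⟩ := rs_nat' P 7
  obtain ⟨h3m, h3r⟩ := rs_nat' P 3
  have m2 : 7 * v ∈ P.O := P.O.mul_mem h7m hvm
  have m3 : 7 * v + 1 ∈ P.O := P.O.add_mem m2 P.O.one_mem
  have m4 : (7 * v + 1) * u⁻¹ ∈ P.O := P.O.mul_mem m3 hw
  have m5 : 3 + (7 * v + 1) * u⁻¹ ∈ P.O := P.O.add_mem h3m m4
  have hr0 : P.rs (-(3 + (7 * v + 1) * u⁻¹)) = -3 := by
    rw [P.rs_neg m5, P.rs_add h3m m4, P.rs_mul m3 hw, h3r, hrw]
    ring
  obtain ⟨s, D', hD', hne', hε, hz, hr, hprod⟩ := spec P hFR ![-(3 + (7 * v + 1) * u⁻¹), 1, v, 1]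
    (by
      intro i
      fin_cases i
      · exact P.O.neg_mem m5
      · exact P.O.one_mem
      · exact hvm
      · exact P.O.one_mem)
    ![false, false, true, true] u⁻¹ (inv_ne_zero hu0) how D hD hne (by
      simp only [Fin.sum_univ_four, Matrix.cons_val_zero, Matrix.cons_val_one, Matrix.cons_val,
        Bool.false_eq_true, if_false, if_true]
      field_simp
      linear_combination hrel)
  simp only [Fin.sum_univ_four, Matrix.cons_val_zero, Matrix.cons_val_one, Matrix.cons_val,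
    P.rs_one, hr0, hvr] at hr
  cases s with
  | true =>
    exfalso
    have e0 := hε 0 (by simp)
    have e1 := hε 1 (by simp)
    rw [e0, e1] at hr
    exact L1c hk D' hD' hne' e0 e1 (by linear_combination hr)
  | false =>
    have e2 := hε 2 (by simp)
    have e3 := hε 3 (by simp)
    rw [e2, e3] at hr
    have hrel' : -3 * D' 0 + D' 1 = 0 := by linear_combination hr
    have h4 := L1d hk D' hD' hne' e2 e3 hrel'
    have hne1 : D' 1 ≠ 0 := by
      intro e1
      rw [e1, add_zero] at hrel'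
      have e0 : D' 0 = 0 := (mul_eq_zero.1 hrel').resolve_left (by norm_num)
      obtain ⟨j, hj⟩ := hne'
      fin_cases j
      · exact hj e0
      · exact hj e1
      · exact hj e2
      · exact hj e3
    refine ⟨fun h => hne1 (hz 1 h), ?_⟩
    rintro ⟨p, q, hpq⟩
    obtain ⟨p', q', hpq'⟩ := hprod 0 1 p q hpq
    exact h4 ⟨p', q', hpq'⟩

theorem L2_line (D : Fin 4 → E) (hD : ∀ i, SSq (D i)) (hne : ∃ i, D i ≠ 0)
    (hrel : ∑ i, algebraMap F2 E (coef i) * D i = 0) :
    ¬ S2 (D 1 * D 2) := by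
  haveI : CharZero E := charZero_of_algebra (F := F2)
  obtain ⟨k, i1, i2, P, hk, hC, hu, hru, hou⟩ := place_at hodd (-(7 * RatFunc.X + 1) / 3 : F1)
  haveI : CharZero k := charZero_of_algebra (F := F1)
  rw [(hC _).2] at hru
  obtain ⟨hvm, hvr⟩ := hC RatFunc.X
  simp only [coef, Fin.sum_univ_four, Matrix.cons_val_zero, Matrix.cons_val_one,
    Matrix.cons_val, map_neg, map_add, map_mul, map_one, map_ofNat] at hrel
  have hc : algebraMap F2 E (RatFunc.C (-(7 * RatFunc.X + 1) / 3 : F1))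
      = -(7 * algebraMap F2 E (RatFunc.C RatFunc.X) + 1) / 3 := by
    simp only [map_div₀, map_neg, map_add, map_mul, map_one, map_ofNat]
  have hc' : algebraMap F1 k (-(7 * RatFunc.X + 1) / 3 : F1)
      = -(7 * algebraMap F1 k RatFunc.X + 1) / 3 := by
    simp only [map_div₀, map_neg, map_add, map_mul, map_one, map_ofNat]
  have hg0 : algebraMap F2 E RatFunc.X
      - algebraMap F2 E (RatFunc.C (-(7 * RatFunc.X + 1) / 3 : F1)) ≠ 0 := by
    rw [← map_sub, Ne, FaithfulSMul.algebraMap_eq_zero_iff, ← RatFunc.algebraMap_X,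
      ← RatFunc.algebraMap_C, ← map_sub, FaithfulSMul.algebraMap_eq_zero_iff]
    exact Polynomial.X_sub_C_ne_zero _
  rw [hc] at hou hg0
  rw [hc'] at hru
  set u := algebraMap F2 E RatFunc.X with hudef
  set v := algebraMap F2 E (RatFunc.C RatFunc.X) with hvdef
  have hFR : FR k := OR_F1 k hk
  obtain ⟨h7m, h7r⟩ := rs_nat' P 7
  obtain ⟨h3m, h3r⟩ := rs_nat' P 3
  obtain ⟨s, D', hD', hne', hε, hz, hr, hprod⟩ := spec P hFR ![-3, u, v, 1]
    (by
      intro i
      fin_cases i
      · exact P.O.neg_mem h3m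
      · exact hu
      · exact hvm
      · exact P.O.one_mem)
    ![true, false, false, false] (u - -(7 * v + 1) / 3) hg0 hou D hD hne (by
      simp only [Fin.sum_univ_four, Matrix.cons_val_zero, Matrix.cons_val_one, Matrix.cons_val,
        Bool.false_eq_true, if_false, if_true]
      linear_combination hrel)
  simp only [Fin.sum_univ_four, Matrix.cons_val_zero, Matrix.cons_val_one, Matrix.cons_val,
    P.rs_one, P.rs_neg h3m, h3r, hvr, hru] at hr
  cases s with
  | true =>
    exfalso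
    have e1 := hε 1 (by simp)
    have e2 := hε 2 (by simp)
    have e3 := hε 3 (by simp)
    rw [e1, e2, e3] at hr
    have e0 : D' 0 = 0 := by
      have : (-3 : k) * D' 0 = 0 := by linear_combination hr
      exact (mul_eq_zero.1 this).resolve_left (by norm_num)
    obtain ⟨j, hj⟩ := hne'
    fin_cases j
    · exact hj e0
    · exact hj e1
    · exact hj e2
    · exact hj e3
  | false =>
    have e0 := hε 0 (by simp)
    rw [e0] at hr
    have hrel' : -(7 * algebraMap F1 k RatFunc.X + 1) * D' 1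
        + 3 * algebraMap F1 k RatFunc.X * D' 2 + 3 * D' 3 = 0 := by linear_combination 3 * hr
    have h4 := L1b_inf hk D' hD' hne' e0 hrel'
    rintro ⟨p, q, hpq⟩
    obtain ⟨p', q', hpq'⟩ := hprod 1 2 p q hpq
    exact h4 ⟨p', q', hpq'⟩

theorem C1_F2 : C1 fun i => algebraMap F2 E (coef i) := by
  intro D hD hrel hne i
  obtain ⟨h0, h2, h3, -, -⟩ := L2_zero hodd D hD hne hrel
  obtain ⟨h1, -⟩ := L2_inf hodd D hD hne hrel
  fin_cases i
  · exact h0
  · exact h1
  · exact h2
  · exact h3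

end

/-- the field `ℚ(v)(u)(X)` -/
abbrev F3 := RatFunc F2
/-- the field `ℚ(v)(u)(X)(Z)` -/
abbrev F4 := RatFunc F3

instance isDomain_F2 : IsDomain F2 := inferInstance
instance isDomain_F3 : IsDomain F3 := inferInstance
instance charZero_F3 : CharZero F3 := charZero_of_algebra (F := F2) (E := F3)
instance charZero_F4 : CharZero F4 := charZero_of_algebra (F := F3) (E := F4)

theorem OR_F3 : OR F3 := OR_ratFunc OR_F2

theorem C1_F3 {E : Type} [Field E] [Algebra F3 E] (hodd : Odd (Module.finrank F3 E)) :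
    C1 fun i => algebraMap F3 E (RatFunc.C (coef i)) := by
  intro D hD hrel hne i hi
  obtain ⟨k, i1, i2, P, hk, hC, -⟩ := place_at hodd (0 : F2)
  have hFR : FR k := OR_F2 k hk
  obtain ⟨s, D', hD', ⟨j, hj⟩, hε, hz, hr, -⟩ := spec P hFR
    (fun i => algebraMap F3 E (RatFunc.C (coef i))) (fun i => (hC _).1)
    (fun _ => false) P.unif P.unif_ne (by rw [P.ord_unif]; decide) D hD hne (by
      simpa using hrel)
  simp only [(hC _).2] at hr
  exact C1_F2 hk D' hD' hr ⟨j, hj⟩ i (hz i hi)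

end Pool.Agent.H45
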