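import Pool.Agent.H45.Place

/-!
The specialisation step for linearly dependent vectors in a trace relation.
-/

namespace Pool.Agent.H45

/-- sums of squares -/
def SSq {E : Type} [Field E] (x : E) : Prop := ∃ (m : ℕ) (c : Fin m → E), x = ∑ i, c i ^ 2

theorem SSq.zero {E : Type} [Field E] : SSq (0 : E) := ⟨0, fun _ => 0, by simp⟩

theorem SSq.scaled {E : Type} [Field E] (t : E) {m : ℕ} (c : Fin m → E) :
    SSq ((1 + t ^ 2) * ∑ j, c j ^ 2) := by
  refine ⟨m + m, Fin.append c (fun j => t * c j), ?_⟩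
  rw [Fin.sum_univ_add]
  simp only [Fin.append_left, Fin.append_right]
  rw [add_mul, one_mul, Finset.mul_sum]
  congr 1
  exact Finset.sum_congr rfl fun i _ => by ring

/-- strong anisotropy of all proper sub-tuples of the coefficient tuple -/
def C1 {k : Type} [Field k] (a : Fin 4 → k) : Prop :=
  ∀ D : Fin 4 → k, (∀ i, SSq (D i)) → ∑ i, a i * D i = 0 → (∃ i, D i ≠ 0) → ∀ i, D i ≠ 0

/-- a configuration: vectors `c i`, not all zero, satisfying the trace relation with coefficients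
`a i * (1 + t i ^ 2)` and the linear relation with coefficients `y i`. -/
def Conf {E : Type} [Field E] (a t y : Fin 4 → E) : Prop :=
  ∃ (m : ℕ) (c : Fin 4 → Fin m → E), (∃ i j, c i j ≠ 0) ∧
    ∑ i, a i * ((1 + t i ^ 2) * ∑ j, c i j ^ 2) = 0 ∧ ∀ j, ∑ i, y i * c i j = 0

theorem FR.one_add_sq_ne {k : Type} [Field k] (hk : FR k) (t : k) : 1 + t ^ 2 ≠ 0 := by
  intro h
  have := hk 2 ![1, t] (by simpa [Fin.sum_univ_two] using h) 0
  simp at this

namespace Pl

variable {E k : Type} [Field E] [Field k] (P : Pl E k)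

open Classical in
/-- the pole order (as a nonpositive integer) -/
noncomputable def pole (t : E) : ℤ := if t ∈ P.O then 0 else P.ord t

open Classical in
/-- the scaling factor attached to a parameter -/
noncomputable def gg (t : E) : E := if t ∈ P.O then 1 else t

theorem gg_ne (t : E) : P.gg t ≠ 0 := by
  unfold gg
  split_ifs with h
  · exact one_ne_zero
  · rintro rfl
    exact h P.O.zero_mem

theorem ord_gg (t : E) : P.ord (P.gg t) = P.pole t := by
  unfold gg pole
  split_ifs with h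
  · exact P.ord_one
  · rfl

theorem tau_mem (t : E) : (1 + t ^ 2) / P.gg t ^ 2 ∈ P.O ∧
    P.rs ((1 + t ^ 2) / P.gg t ^ 2) = 1 + P.rs t ^ 2 := by
  unfold gg
  split_ifs with h
  · have h1 : 1 + t ^ 2 ∈ P.O := P.O.add_mem P.O.one_mem (P.O.pow_mem h 2)
    rw [one_pow, div_one]
    exact ⟨h1, by rw [P.rs_add P.O.one_mem (P.O.pow_mem h 2), P.rs_one, P.rs_pow h]⟩
  · have ht : t ≠ 0 := by
      rintro rfl
      exact h P.O.zero_mem
    have ho : P.ord t < 0 := by
      by_contra hc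
      exact h ((P.mem_iff ht).2 (not_lt.1 hc))
    have hi : 0 < P.ord t⁻¹ := by rw [P.ord_inv ht]; omega
    have hmi : t⁻¹ ∈ P.O := (P.mem_iff (inv_ne_zero ht)).2 hi.le
    have hri : P.rs t⁻¹ = 0 := P.rs_eq_zero_of_ord_pos fun _ => hi
    have hrt : P.rs t = 0 := by simp [rs, h]
    have he : (1 + t ^ 2) / t ^ 2 = 1 + t⁻¹ ^ 2 := by
      field_simp
      ring
    rw [he]
    refine ⟨P.O.add_mem P.O.one_mem (P.O.pow_mem hmi 2), ?_⟩
    rw [P.rs_add P.O.one_mem (P.O.pow_mem hmi 2), P.rs_one, P.rs_pow hmi, hri, hrt]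

end Pl

/-- The specialisation step. -/
theorem Conf.step {E k : Type} [Field E] [Field k] (P : Pl E k) (hk : FR k)
    (a t y : Fin 4 → E) (ha : ∀ i, a i ∈ P.O) (hC1 : C1 fun i => P.rs (a i))
    (hc : Conf a t y) (hy : ∃ i, y i ≠ 0) :
    ∃ z : Fin 4 → k, (∃ i, z i ≠ 0) ∧
      Conf (fun i => P.rs (a i)) (fun i => P.rs (t i)) z ∧
      (∀ i, y i = 0 → z i = 0) ∧
      (∀ i j, y i ≠ 0 → y j ≠ 0 → P.ord (y i) - P.pole (t i) ≠ P.ord (y j) - P.pole (t j) →
        z i = 0 ∨ z j = 0) := by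
  classical
  obtain ⟨m, c, ⟨i1, j1, hc1⟩, hrel, hlin⟩ := hc
  -- scaling of all the vectors
  obtain ⟨n, hn, ⟨i0, j0, b0⟩, hb0, hbn⟩ := P.exists_scale
    (fun q : Fin 4 × Fin m × Bool => if q.2.2 then t q.1 * c q.1 q.2.1 else c q.1 q.2.1)
    ⟨(i1, j1, false), by simpa using hc1⟩
  have hnc : ∀ i j, c i j ≠ 0 → n ≤ P.ord (c i j) := fun i j h => by
    have := hn (i, j, false)
    simpa using this (by simpa using h)
  have hntc : ∀ i j, t i * c i j ≠ 0 → n ≤ P.ord (t i * c i j) := fun i j h => by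
    have := hn (i, j, true)
    simpa using this (by simpa using h)
  let g : Fin 4 → E := fun i => P.gg (t i)
  have hg : ∀ i, g i ≠ 0 := fun i => P.gg_ne (t i)
  let d : Fin 4 → Fin m → E := fun i j => P.unif ^ (-n) * (g i * c i j)
  have hgc : ∀ i j, g i * c i j ≠ 0 → n ≤ P.ord (g i * c i j) := fun i j h => by
    by_cases ht : t i ∈ P.O
    · have : g i = 1 := by simp [g, Pl.gg, ht]
      rw [this, one_mul] at h ⊢
      exact hnc i j h
    · have : g i = t i := by simp [g, Pl.gg, ht]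
      rw [this] at h ⊢
      exact hntc i j h
  have hdm : ∀ i j, d i j ∈ P.O := fun i j => P.scaled_mem (hgc i j)
  -- the relation upstairs
  have hrel2 : ∑ i, a i * ((1 + t i ^ 2) / g i ^ 2 * ∑ j, d i j ^ 2) = 0 := by
    have : ∀ i, a i * ((1 + t i ^ 2) / g i ^ 2 * ∑ j, d i j ^ 2)
        = (P.unif ^ (-n)) ^ 2 * (a i * ((1 + t i ^ 2) * ∑ j, c i j ^ 2)) := fun i => by
      have h1 : ∑ j, d i j ^ 2 = (P.unif ^ (-n)) ^ 2 * (g i ^ 2 * ∑ j, c i j ^ 2) := by
        rw [Finset.mul_sum, Finset.mul_sum]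
        exact Finset.sum_congr rfl fun j _ => by simp only [d]; ring
      rw [h1]
      have := hg i
      field_simp
    rw [Finset.sum_congr rfl fun i _ => this i, ← Finset.mul_sum, hrel, mul_zero]
  have hrel3 : ∑ i, P.rs (a i) * ((1 + P.rs (t i) ^ 2) * ∑ j, P.rs (d i j) ^ 2) = 0 := by
    have h0 := congrArg P.rs hrel2
    rw [P.rs_zero, P.rs_sum] at h0
    · rw [← h0]
      refine Finset.sum_congr rfl fun i _ => ?_
      have hs : (∑ j, d i j ^ 2) ∈ P.O := P.O.sum_mem fun j _ => P.O.pow_mem (hdm i j) 2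
      obtain ⟨h1, h2⟩ := P.tau_mem (t i)
      rw [P.rs_mul (ha i) (P.O.mul_mem h1 hs), P.rs_mul h1 hs, h2,
        P.rs_sum _ fun j _ => P.O.pow_mem (hdm i j) 2]
      simp only [P.rs_pow (hdm _ _)]
    · intro i _
      exact P.O.mul_mem (ha i) (P.O.mul_mem (P.tau_mem (t i)).1
        (P.O.sum_mem fun j _ => P.O.pow_mem (hdm i j) 2))
  -- nonzero residue
  have hne : P.rs (d i0 j0) ≠ 0 := by
    by_cases ht : t i0 ∈ P.O
    · have hgi : g i0 = 1 := by simp [g, Pl.gg, ht]
      simp only [d, hgi, one_mul]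
      cases b0 with
      | false =>
        simp only [Bool.false_eq_true, if_false] at hb0 hbn
        exact P.scaled_rs_ne hb0 hbn
      | true =>
        simp only [if_true] at hb0 hbn
        have hc0 : c i0 j0 ≠ 0 := right_ne_zero_of_mul hb0
        have ht0 : t i0 ≠ 0 := left_ne_zero_of_mul hb0
        rw [P.ord_mul ht0 hc0] at hbn
        have h1 := hnc i0 j0 hc0
        have h2 := P.ord_nonneg_of_mem ht ht0
        exact P.scaled_rs_ne hc0 (by omega)
    · have hgi : g i0 = t i0 := by simp [g, Pl.gg, ht]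
      have ht0 : t i0 ≠ 0 := by
        intro h
        rw [h] at ht
        exact ht P.O.zero_mem
      have hto : P.ord (t i0) < 0 := by
        by_contra hc
        exact ht ((P.mem_iff ht0).2 (not_lt.1 hc))
      simp only [d, hgi]
      cases b0 with
      | false =>
        simp only [Bool.false_eq_true, if_false] at hb0 hbn
        have h1 := hntc i0 j0 (mul_ne_zero ht0 hb0)
        rw [P.ord_mul ht0 hb0] at h1
        omega
      | true =>
        simp only [if_true] at hb0 hbn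
        exact P.scaled_rs_ne hb0 hbn
  have hSne : ∀ i, (∃ j, P.rs (d i j) ≠ 0) →
      (1 + P.rs (t i) ^ 2) * ∑ j, P.rs (d i j) ^ 2 ≠ 0 := fun i ⟨j, hj⟩ =>
    mul_ne_zero (hk.one_add_sq_ne _) fun h => hj (hk m _ h j)
  have hall := hC1 (fun i => (1 + P.rs (t i) ^ 2) * ∑ j, P.rs (d i j) ^ 2)
    (fun i => SSq.scaled _ _) hrel3 ⟨i0, hSne i0 ⟨j0, hne⟩⟩
  -- the linear relation
  let w : Fin 4 → E := fun i => y i / g i
  obtain ⟨iy, hiy⟩ := hy
  obtain ⟨s, hs, i2, hi2, hi2s⟩ := P.exists_scale w ⟨iy, div_ne_zero hiy (hg iy)⟩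
  refine ⟨fun i => P.rs (P.unif ^ (-s) * w i), ⟨i2, P.scaled_rs_ne hi2 hi2s⟩,
    ⟨m, fun i j => P.rs (d i j), ⟨i0, j0, hne⟩, hrel3, ?_⟩, ?_, ?_⟩
  · intro j
    have h0 : ∑ i, (P.unif ^ (-s) * w i) * d i j = 0 := by
      have : ∀ i, (P.unif ^ (-s) * w i) * d i j
          = (P.unif ^ (-s) * P.unif ^ (-n)) * (y i * c i j) := fun i => by
        simp only [w, d]
        have := hg i
        field_simp
      rw [Finset.sum_congr rfl fun i _ => this i, ← Finset.mul_sum, hlin j, mul_zero]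
    have h1 := congrArg P.rs h0
    rw [P.rs_zero, P.rs_sum _ fun i _ => P.O.mul_mem (P.scaled_mem (hs i)) (hdm i j)] at h1
    rw [← h1]
    exact Finset.sum_congr rfl fun i _ => (P.rs_mul (P.scaled_mem (hs i)) (hdm i j)).symm
  · intro i hi
    simp only [w, hi, zero_div, mul_zero, P.rs_zero]
  · intro i j hi hj hij
    have hwi : w i ≠ 0 := div_ne_zero hi (hg i)
    have hwj : w j ≠ 0 := div_ne_zero hj (hg j)
    have hoi : P.ord (w i) = P.ord (y i) - P.pole (t i) := by
      simp only [w, div_eq_mul_inv]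
      rw [P.ord_mul hi (inv_ne_zero (hg i)), P.ord_inv (hg i), P.ord_gg]
      ring
    have hoj : P.ord (w j) = P.ord (y j) - P.pole (t j) := by
      simp only [w, div_eq_mul_inv]
      rw [P.ord_mul hj (inv_ne_zero (hg j)), P.ord_inv (hg j), P.ord_gg]
      ring
    have h1 := hs i hwi
    have h2 := hs j hwj
    by_cases h3 : P.ord (w i) = s
    · right
      exact P.scaled_rs_eq_zero fun _ => by omega
    · left
      exact P.scaled_rs_eq_zero fun _ => by omega

end Pool.Agent.H45
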