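import Pool.Agent.H45.Level2
import Pool.Agent.H45.Step

/-!
No linearly dependent configuration exists over `ℚ(v)(u)(X)(Z)`.
-/

namespace Pool.Agent.H45

theorem stepPair {κ : Type} [Field κ] [CharZero κ] (hκ : OR κ) {E : Type} [Field E]
    [Algebra (RatFunc κ) E] (hodd : Odd (Module.finrank (RatFunc κ) E)) (a : Fin 4 → κ)
    (hC1 : ∀ (k : Type) [Field k] [Algebra κ k], Odd (Module.finrank κ k) →
      C1 fun i => algebraMap κ k (a i))
    (t y : Fin 4 → E) (i j : Fin 4) (ti : t i = algebraMap (RatFunc κ) E RatFunc.X)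
    (tj : t j = 0) (hy : ∃ i, y i ≠ 0)
    (hc : Conf (fun l => algebraMap (RatFunc κ) E (RatFunc.C (a l))) t y) :
    ∃ (k : Type) (_ : Field k) (_ : Algebra κ k) (P : Pl E k) (z : Fin 4 → k),
      Odd (Module.finrank κ k) ∧
      (∀ b : κ, P.rs (algebraMap (RatFunc κ) E (RatFunc.C b)) = algebraMap κ k b) ∧
      (∃ i, z i ≠ 0) ∧ Conf (fun l => algebraMap κ k (a l)) (fun l => P.rs (t l)) z ∧
      (∀ l, y l = 0 → z l = 0) ∧ (z i = 0 ∨ z j = 0) := by
  by_cases hij : y i ≠ 0 ∧ y j ≠ 0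
  · obtain ⟨hi, hj⟩ := hij
    obtain ⟨k, i1, i2, P, hk, hC, hpar⟩ := exists_place hodd (y i * y j) (mul_ne_zero hi hj)
    obtain ⟨z, hz, hconf, hzero, hdis⟩ := Conf.step P (hκ k hk) _ t y (fun l => (hC (a l)).1)
      (by simp only [(hC _).2]; exact hC1 k hk) hc hy
    simp only [(hC _).2] at hconf
    refine ⟨k, i1, i2, P, z, hk, fun b => (hC b).2, hz, hconf, hzero, hdis i j hi hj ?_⟩
    rw [tj, ti]
    have hp0 : P.pole 0 = 0 := by simp [Pl.pole, P.O.zero_mem]
    rw [hp0, sub_zero]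
    rw [P.ord_mul hi hj] at hpar
    intro heq
    rw [← Int.not_even_iff_odd] at hpar
    exact hpar ⟨P.ord (y i), by omega⟩
  · obtain ⟨k, i1, i2, P, hk, hC, -⟩ := exists_place hodd (1 : E) one_ne_zero
    obtain ⟨z, hz, hconf, hzero, -⟩ := Conf.step P (hκ k hk) _ t y (fun l => (hC (a l)).1)
      (by simp only [(hC _).2]; exact hC1 k hk) hc hy
    simp only [(hC _).2] at hconf
    refine ⟨k, i1, i2, P, z, hk, fun b => (hC b).2, hz, hconf, hzero, ?_⟩
    by_cases hi : y i = 0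
    · exact Or.inl (hzero i hi)
    · exact Or.inr (hzero j (by tauto))

/-- two proportional vectors give a product of the weights which is a sum of two squares -/
theorem S2_of_prop {E : Type} [Field E] {m : ℕ} (ti tj l : E) (ci cj : Fin m → E)
    (h : ∀ s, ci s = l * cj s) :
    S2 (((1 + ti ^ 2) * ∑ s, ci s ^ 2) * ((1 + tj ^ 2) * ∑ s, cj s ^ 2)) := by
  refine ⟨(1 - ti * tj) * (l * ∑ s, cj s ^ 2), (ti + tj) * (l * ∑ s, cj s ^ 2), ?_⟩
  have : ∑ s, ci s ^ 2 = l ^ 2 * ∑ s, cj s ^ 2 := by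
    rw [Finset.mul_sum]
    exact Finset.sum_congr rfl fun s _ => by rw [h s]; ring
  rw [this]
  ring

theorem S2_comm {E : Type} [Field E] (a b : E) (h : S2 (a * b)) : S2 (b * a) := by
  rwa [mul_comm]

/-- the last step: a dependent pair contradicts the relations over odd extensions of `ℚ(v)(u)` -/
theorem conf_final {E : Type} [Field E] [Algebra F2 E] (hodd : Odd (Module.finrank F2 E))
    (t z : Fin 4 → E) (hz : ∃ i, z i ≠ 0) (hc : Conf (fun l => algebraMap F2 E (coef l)) t z)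
    (i j : Fin 4) (hp : (i = 0 ∧ j = 1) ∨ (i = 0 ∧ j = 2) ∨ (i = 1 ∧ j = 2) ∨ (i = 2 ∧ j = 3))
    (hsupp : ∀ l, l ≠ i → l ≠ j → z l = 0) : False := by
  have hFR : FR E := OR_F2 E hodd
  obtain ⟨m, c, ⟨i0, s0, h0⟩, hrel, hlin⟩ := hc
  have hij : i ≠ j := by
    rcases hp with ⟨rfl, rfl⟩ | ⟨rfl, rfl⟩ | ⟨rfl, rfl⟩ | ⟨rfl, rfl⟩ <;> decide
  have hlin' : ∀ s, z i * c i s + z j * c j s = 0 := by
    intro s
    rw [← hlin s]
    symm
    apply Finset.sum_eq_add i j hij
    · intro l _ hl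
      rw [hsupp l hl.1 hl.2, zero_mul]
    · intro h
      exact absurd (Finset.mem_univ _) h
    · intro h
      exact absurd (Finset.mem_univ _) h
  let D : Fin 4 → E := fun l => (1 + t l ^ 2) * ∑ s, c l s ^ 2
  have hD : ∀ l, SSq (D l) := fun l => SSq.scaled _ _
  have hne : ∃ l, D l ≠ 0 := ⟨i0, mul_ne_zero (hFR.one_add_sq_ne _) fun h => h0 (hFR m _ h s0)⟩
  have hS : S2 (D i * D j) := by
    by_cases hzi : z i = 0
    · have hzj : z j ≠ 0 := by
        intro hzj
        obtain ⟨l, hl⟩ := hz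
        by_cases h1 : l = i
        · exact hl (h1 ▸ hzi)
        · by_cases h2 : l = j
          · exact hl (h2 ▸ hzj)
          · exact hl (hsupp l h1 h2)
      apply S2_comm
      apply S2_of_prop (t j) (t i) 0
      intro s
      have := hlin' s
      rw [hzi, zero_mul, zero_add] at this
      rw [zero_mul]
      exact (mul_eq_zero.1 this).resolve_left hzj
    · apply S2_of_prop (t i) (t j) (-(z j / z i))
      intro s
      have := hlin' s
      field_simp
      linear_combination this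
  obtain ⟨-, -, -, h02, h23⟩ := L2_zero hodd D hD hne hrel
  obtain ⟨-, h01⟩ := L2_inf hodd D hD hne hrel
  have h12 := L2_line hodd D hD hne hrel
  rcases hp with ⟨rfl, rfl⟩ | ⟨rfl, rfl⟩ | ⟨rfl, rfl⟩ | ⟨rfl, rfl⟩
  · exact h01 hS
  · exact h02 hS
  · exact h12 hS
  · exact h23 hS

theorem fin4_cases (l : Fin 4) : l = 0 ∨ l = 1 ∨ l = 2 ∨ l = 3 := by
  fin_cases l <;> simp

theorem no_conf3 {E : Type} [Field E] [Algebra F3 E] (hodd : Odd (Module.finrank F3 E))
    (t y : Fin 4 → E) (hy : ∃ i, y i ≠ 0)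
    (hc : Conf (fun l => algebraMap F3 E (RatFunc.C (coef l))) t y)
    (t1 : t 1 = algebraMap F3 E RatFunc.X) (t2 : t 2 = 0) (t3 : t 3 = 0)
    (h03 : y 0 = 0 ∨ y 3 = 0) : False := by
  rcases h03 with h | h
  · obtain ⟨k, i1, i2, P, z, hk, hC, hz, hconf, hzero, hd⟩ := stepPair OR_F2 hodd coef
      (fun k _ _ hk => C1_F2 hk) t y 1 3 t1 t3 hy hc
    have h0 := hzero 0 h
    rcases hd with h1 | h3
    · refine conf_final hk _ z hz hconf 2 3 (by simp) fun l h2' h3' => ?_
      rcases fin4_cases l with rfl | rfl | rfl | rfl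
      · exact h0
      · exact h1
      · exact absurd rfl h2'
      · exact absurd rfl h3'
    · refine conf_final hk _ z hz hconf 1 2 (by simp) fun l h1' h2' => ?_
      rcases fin4_cases l with rfl | rfl | rfl | rfl
      · exact h0
      · exact absurd rfl h1'
      · exact absurd rfl h2'
      · exact h3
  · obtain ⟨k, i1, i2, P, z, hk, hC, hz, hconf, hzero, hd⟩ := stepPair OR_F2 hodd coef
      (fun k _ _ hk => C1_F2 hk) t y 1 2 t1 t2 hy hc
    have h3 := hzero 3 h
    rcases hd with h1 | h2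
    · refine conf_final hk _ z hz hconf 0 2 (by simp) fun l h0' h2' => ?_
      rcases fin4_cases l with rfl | rfl | rfl | rfl
      · exact absurd rfl h0'
      · exact h1
      · exact absurd rfl h2'
      · exact h3
    · refine conf_final hk _ z hz hconf 0 1 (by simp) fun l h0' h1' => ?_
      rcases fin4_cases l with rfl | rfl | rfl | rfl
      · exact absurd rfl h0'
      · exact absurd rfl h1'
      · exact h2
      · exact h3

theorem no_conf4 {E : Type} [Field E] [Algebra F4 E] (hodd : Odd (Module.finrank F4 E))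
    (t y : Fin 4 → E) (hy : ∃ i, y i ≠ 0)
    (hc : Conf (fun l => algebraMap F4 E (RatFunc.C (RatFunc.C (coef l)))) t y)
    (t0 : t 0 = algebraMap F4 E RatFunc.X)
    (t1 : t 1 = algebraMap F4 E (RatFunc.C RatFunc.X)) (t2 : t 2 = 0) (t3 : t 3 = 0) : False := by
  obtain ⟨k, i1, i2, P, z, hk, hC, hz, hconf, hzero, hd⟩ := stepPair OR_F3 hodd
      (fun l => RatFunc.C (coef l)) (fun k _ _ hk => C1_F3 hk) t y 0 3 t0 t3 hy hc
  refine no_conf3 hk _ z hz hconf ?_ ?_ ?_ hd
  · rw [t1]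
    exact hC _
  · rw [t2, P.rs_zero]
  · rw [t3, P.rs_zero]

/-- No nontrivial configuration over `ℚ(v)(u)(X)(Z)` itself. -/
theorem no_conf (y : Fin 4 → F4) (hy : ∃ i, y i ≠ 0) :
    ¬ Conf (fun l => RatFunc.C (RatFunc.C (coef l)))
      ![RatFunc.X, RatFunc.C RatFunc.X, 0, 0] y := by
  intro hc
  refine no_conf4 (E := F4) (by rw [Module.finrank_self]; decide)
    ![RatFunc.X, RatFunc.C RatFunc.X, 0, 0] y hy hc ?_ ?_ rfl rfl
  · rfl
  · rfl

end Pool.Agent.H45
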