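import Pool.Agent.H45.PlaceOf

/-!
A norm of odd order has a prime above of odd residue degree where the element has odd order.
-/

namespace Pool.Agent.H45

open IsDedekindDomain UniqueFactorizationMonoid Ideal

section

variable {A S : Type} [CommRing A] [IsDedekindDomain A] [CommRing S] [IsDedekindDomain S]
  [Algebra A S] [Module.Finite A S] [Module.IsTorsionFree A S] [PerfectField (FractionRing A)]

open Classical in
theorem count_relNorm (p : Ideal A) [p.IsMaximal] (hp : p ≠ ⊥) (I : Ideal S) (hI : I ≠ 0) :
    (normalizedFactors (relNorm A I)).count p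
      = ((normalizedFactors I).map fun P => if P.under A = p then P.inertiaDeg A else 0).sum := by
  induction I using UniqueFactorizationMonoid.induction_on_prime with
  | h₁ => exact absurd rfl hI
  | h₂ x hx =>
    rw [isUnit_iff] at hx
    rw [hx, relNorm_top]
    simp [← one_eq_top]
  | h₃ J P hJ hP ih =>
    have hPb : P ≠ ⊥ := hP.ne_zero
    have hPp : P.IsPrime := isPrime_of_prime hP
    have hPm : P.IsMaximal := hPp.isMaximal hPb
    have hu : (P.under A).IsMaximal := inferInstance
    have hub : P.under A ≠ ⊥ := by
      intro h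
      exact hPb (eq_bot_of_comap_eq_bot h)
    have hrP : relNorm A P = (P.under A) ^ P.inertiaDeg A := relNorm_eq_pow_of_isMaximal P (P.under A)
    have hrJ : relNorm A J ≠ 0 := by
      rw [Ne, zero_eq_bot, relNorm_eq_bot_iff]
      exact hJ
    have hup : Irreducible (P.under A) := (prime_of_isPrime hub inferInstance).irreducible
    rw [map_mul, hrP, normalizedFactors_mul (pow_ne_zero _ hub) hrJ,
      normalizedFactors_pow, normalizedFactors_irreducible hup, normalizedFactors_mul hPb hJ,
      normalizedFactors_irreducible hP.irreducible, Multiset.count_add, ih hJ, Multiset.map_add,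
      Multiset.sum_add]
    congr 1
    rw [normalize_eq, normalize_eq, Multiset.count_nsmul, Multiset.map_singleton,
      Multiset.sum_singleton, Multiset.count_singleton]
    by_cases h : P.under A = p
    · simp [h]
    · simp [h, Ne.symm h]

theorem even_count_relNorm (p : Ideal A) [p.IsMaximal] (hp : p ≠ ⊥) (I : Ideal S) (hI : I ≠ 0)
    (h : ∀ P ∈ normalizedFactors I, P.under A = p → Odd (P.inertiaDeg A) →
      Even ((normalizedFactors I).count P)) :
    Even ((normalizedFactors (relNorm A I)).count p) := by
  classical
  rw [count_relNorm p hp I hI, Finset.sum_multiset_map_count]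
  refine Finset.even_sum _ fun P hP => ?_
  rw [Multiset.mem_toFinset] at hP
  rw [smul_eq_mul]
  by_cases h1 : P.under A = p
  · rw [if_pos h1]
    rcases Nat.even_or_odd (P.inertiaDeg A) with h2 | h2
    · exact h2.mul_left _
    · exact (h P hP h1 h2).mul_right _
  · rw [if_neg h1]
    simp

end

section

variable {A : Type} [CommRing A] [IsDedekindDomain A] (E : Type) [Field E] [Algebra A E]
  [IsFractionRing A E] (v : HeightOneSpectrum A)

theorem hord_algebraMap {r : A} (hr : r ≠ 0) :
    hord E v (algebraMap A E r) = (normalizedFactors (Ideal.span {r})).count v.asIdeal := by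
  unfold hord
  have hsr : Ideal.span {r} ≠ 0 := Submodule.span_singleton_eq_bot.mp.mt hr
  rw [HeightOneSpectrum.valuation_of_algebraMap, v.intValuation_eq_exp_neg_multiplicity hr,
    WithZero.log_exp, neg_neg,
    multiplicity_eq_count_normalizedFactors v.irreducible hsr, normalize_eq]

end

theorem exists_odd_above {A S F E : Type} [CommRing A] [IsDedekindDomain A] [CommRing S]
    [IsDedekindDomain S] [Algebra A S] [Module.Finite A S] [Module.IsTorsionFree A S]
    [PerfectField (FractionRing A)] [Field F] [Field E] [Algebra A F] [IsFractionRing A F]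
    [Algebra S E] [IsFractionRing S E] [Algebra F E] [Algebra A E] [IsScalarTower A F E]
    [IsScalarTower A S E] [FiniteDimensional F E]
    (p : HeightOneSpectrum A) (x : E) (hx : x ≠ 0) (h : Odd (hord F p (Algebra.norm F x))) :
    ∃ v : HeightOneSpectrum S, v.asIdeal.under A = p.asIdeal ∧ Odd (v.asIdeal.inertiaDeg A) ∧
      Odd (hord E v x) := by
  obtain ⟨s, s', hs', hxs⟩ := IsFractionRing.div_surjective (A := S) x
  have hs'0 : s' ≠ 0 := nonZeroDivisors.ne_zero hs'
  have hs0 : s ≠ 0 := by
    rintro rfl
    rw [map_zero, zero_div] at hxs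
    exact hx hxs.symm
  have hsE : algebraMap S E s ≠ 0 := by simpa using hs0
  have hsE' : algebraMap S E s' ≠ 0 := by simpa using hs'0
  have hpm : p.asIdeal.IsMaximal := p.isPrime.isMaximal p.ne_bot
  -- parity of orders of x and of s * s'
  have key : ∀ v : HeightOneSpectrum S, hord E v (algebraMap S E (s * s'))
      = hord E v x + 2 * hord E v (algebraMap S E s') := fun v => by
    have : algebraMap S E (s * s') = x * (algebraMap S E s' * algebraMap S E s') := by
      rw [map_mul, ← hxs]
      field_simp
    rw [this, hord_mul v hx (mul_ne_zero hsE' hsE'), hord_mul v hsE' hsE']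
    ring
  have hNx : Algebra.norm F x ≠ 0 := by
    rwa [Ne, Algebra.norm_eq_zero_iff]
  have hNs' : Algebra.norm F (algebraMap S E s') ≠ 0 := by
    rwa [Ne, Algebra.norm_eq_zero_iff]
  have key2 : hord F p (algebraMap A F (Algebra.intNorm A S (s * s')))
      = hord F p (Algebra.norm F x) + 2 * hord F p (Algebra.norm F (algebraMap S E s')) := by
    rw [Algebra.algebraMap_intNorm (L := E)]
    have : algebraMap S E (s * s') = x * (algebraMap S E s' * algebraMap S E s') := by
      rw [map_mul, ← hxs]
      field_simp
    rw [this, map_mul, map_mul, hord_mul p hNx (mul_ne_zero hNs' hNs'), hord_mul p hNs' hNs']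
    ring
  have hne : s * s' ≠ 0 := mul_ne_zero hs0 hs'0
  have hI : Ideal.span {s * s'} ≠ (0 : Ideal S) := Submodule.span_singleton_eq_bot.mp.mt hne
  have hN0 : Algebra.intNorm A S (s * s') ≠ 0 := by
    intro h0
    have := congrArg (algebraMap A F) h0
    rw [Algebra.algebraMap_intNorm (L := E), map_zero, Algebra.norm_eq_zero_iff, map_mul] at this
    exact mul_ne_zero hsE hsE' this
  by_contra hcon
  push Not at hcon
  have hev := even_count_relNorm p.asIdeal p.ne_bot (Ideal.span {s * s'}) hI fun P hP h1 h2 => by
    have hPi := irreducible_of_normalized_factor P hP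
    have hPp : P.IsPrime := isPrime_of_prime hPi.prime
    let v : HeightOneSpectrum S := ⟨P, hPp, hPi.ne_zero⟩
    have h3 := hcon v h1 h2
    rw [Int.not_odd_iff_even] at h3
    have h4 := hord_algebraMap E v hne
    rw [key v] at h4
    have h5 : Even (((normalizedFactors (Ideal.span {s * s'})).count P : ℤ)) := by
      rw [← h4]
      exact h3.add (even_two_mul _)
    exact_mod_cast h5
  rw [relNorm_singleton] at hev
  have h6 := hord_algebraMap F p hN0
  rw [key2] at h6
  have h7 : Even (hord F p (Algebra.norm F x) + 2 * hord F p (Algebra.norm F (algebraMap S E s'))) := by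
    rw [h6]
    exact_mod_cast hev
  rw [Int.even_add] at h7
  exact (Int.not_even_iff_odd.2 h) (h7.2 (even_two_mul _))

end Pool.Agent.H45
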