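import Pool.Agent.H45.Step

/-!
Specialisation of a relation between sums of squares, with parity classes.
-/

namespace Pool.Agent.H45

namespace Pl

variable {E k : Type} [Field E] [Field k] (P : Pl E k)

theorem SSq_scale (hk : FR k) {D : E} (hD : SSq D) (μ : ℤ) (h : D ≠ 0 → 2 * μ ≤ P.ord D) :
    P.unif ^ (-(2 * μ)) * D ∈ P.O ∧ SSq (P.rs (P.unif ^ (-(2 * μ)) * D)) := by
  by_cases h0 : D = 0
  · rw [h0, mul_zero, P.rs_zero]
    exact ⟨P.O.zero_mem, SSq.zero⟩
  obtain ⟨m, x, rfl⟩ := hD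
  have hx : ∃ i, x i ≠ 0 := by
    by_contra hc
    push Not at hc
    exact h0 (Finset.sum_eq_zero fun i _ => by rw [hc i]; ring)
  obtain ⟨n, hn, -, -, ho⟩ := P.ord_sum_sq hk x hx
  have hμ := h h0
  have hmem : ∀ i, P.unif ^ (-μ) * x i ∈ P.O := fun i => P.scaled_mem fun hi => by
    have := hn i hi
    omega
  have he : P.unif ^ (-(2 * μ)) * ∑ i, x i ^ 2 = ∑ i, (P.unif ^ (-μ) * x i) ^ 2 := by
    rw [Finset.mul_sum]
    refine Finset.sum_congr rfl fun i _ => ?_
    rw [mul_pow]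
    congr 1
    rw [← zpow_natCast, ← zpow_mul]
    congr 1
    push_cast
    ring
  rw [he]
  refine ⟨P.O.sum_mem fun i _ => P.O.pow_mem (hmem i) 2, m, fun i => P.rs (P.unif ^ (-μ) * x i), ?_⟩
  rw [P.rs_sum _ fun i _ => P.O.pow_mem (hmem i) 2]
  exact Finset.sum_congr rfl fun i _ => P.rs_pow (hmem i) 2

theorem ord_SSq_even (hk : FR k) {D : E} (hD : SSq D) (h0 : D ≠ 0) : ∃ n, P.ord D = 2 * n := by
  obtain ⟨m, x, rfl⟩ := hD
  have hx : ∃ i, x i ≠ 0 := by
    by_contra hc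
    push Not at hc
    exact h0 (Finset.sum_eq_zero fun i _ => by rw [hc i]; ring)
  obtain ⟨n, -, -, -, ho⟩ := P.ord_sum_sq hk x hx
  exact ⟨n, ho⟩

end Pl

/-- Specialisation of a four term relation between sums of squares. -/
theorem spec {E k : Type} [Field E] [Field k] (P : Pl E k) (hk : FR k)
    (b : Fin 4 → E) (hb : ∀ i, b i ∈ P.O) (ε : Fin 4 → Bool) (g : E) (hg : g ≠ 0)
    (hodd : Odd (P.ord g)) (D : Fin 4 → E) (hD : ∀ i, SSq (D i)) (hne : ∃ i, D i ≠ 0)
    (hrel : ∑ i, (if ε i then g else 1) * b i * D i = 0) :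
    ∃ (s : Bool) (D' : Fin 4 → k), (∀ i, SSq (D' i)) ∧ (∃ i, D' i ≠ 0) ∧
      (∀ i, ε i ≠ s → D' i = 0) ∧ (∀ i, D i = 0 → D' i = 0) ∧
      ∑ i, P.rs (b i) * D' i = 0 ∧
      (∀ i j p q, D i * D j = p ^ 2 + q ^ 2 → ∃ p' q', D' i * D' j = p' ^ 2 + q' ^ 2) := by
  classical
  let G : Bool → E := fun e => if e then g else 1
  have hG : ∀ e, G e ≠ 0 := fun e => by cases e <;> simp [G, hg]
  have hne' : ∃ i, G (ε i) * D i ≠ 0 := by
    obtain ⟨i, hi⟩ := hne
    exact ⟨i, mul_ne_zero (hG _) hi⟩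
  obtain ⟨N, hN, i0, hi0, hi0N⟩ := P.exists_scale (fun i => G (ε i) * D i) hne'
  have hDi0 : D i0 ≠ 0 := right_ne_zero_of_mul hi0
  obtain ⟨μ, hμ⟩ := P.ord_SSq_even hk (hD i0) hDi0
  set s := ε i0 with hs
  rw [P.ord_mul (hG _) hDi0, hμ] at hi0N
  have hord : ∀ i, D i ≠ 0 → P.ord (G s) + 2 * μ ≤ P.ord (G (ε i)) + P.ord (D i) := fun i hi => by
    have := hN i (mul_ne_zero (hG _) hi)
    rw [P.ord_mul (hG _) hi] at this
    omega
  have hsame : ∀ i, ε i = s → D i ≠ 0 → 2 * μ ≤ P.ord (D i) := fun i hi h => by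
    have := hord i h
    rw [hi] at this
    omega
  have hdiff : ∀ i, ε i ≠ s → D i ≠ 0 → P.ord (G s) + 2 * μ < P.ord (G (ε i)) + P.ord (D i) :=
    fun i hi h => by
      have h1 := hord i h
      obtain ⟨n, hn⟩ := P.ord_SSq_even hk (hD i) h
      have h2 : Odd (P.ord (G (ε i)) - P.ord (G s)) := by
        have h3 : P.ord (1 : E) = 0 := P.ord_one
        cases he : ε i <;> cases hs' : s
        · exact absurd (he.trans hs'.symm) hi
        · have : Odd (-(P.ord g)) := hodd.neg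
          simpa [G, h3] using this
        · simpa [G, h3] using hodd
        · exact absurd (he.trans hs'.symm) hi
      obtain ⟨r, hr⟩ := h2
      omega
  have hsc : ∀ i, ε i = s → P.unif ^ (-(2 * μ)) * D i ∈ P.O ∧
      SSq (P.rs (P.unif ^ (-(2 * μ)) * D i)) := fun i hi =>
    P.SSq_scale hk (hD i) μ (hsame i hi)
  let D' : Fin 4 → k := fun i => if ε i = s then P.rs (P.unif ^ (-(2 * μ)) * D i) else 0
  refine ⟨s, D', fun i => ?_, ⟨i0, ?_⟩, fun i hi => ?_, fun i hi => ?_, ?_, ?_⟩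
  · by_cases h : ε i = s
    · simpa [D', h] using (hsc i h).2
    · simpa [D', h] using SSq.zero
  · have : D' i0 = P.rs (P.unif ^ (-(2 * μ)) * D i0) := by simp [D', hs]
    rw [this]
    exact P.scaled_rs_ne hDi0 hμ
  · simp [D', hi]
  · simp [D', hi, P.rs_zero]
  · -- the relation
    have h0 : ∑ i, b i * ((G s)⁻¹ * P.unif ^ (-(2 * μ)) * (G (ε i) * D i)) = 0 := by
      have : ∀ i, b i * ((G s)⁻¹ * P.unif ^ (-(2 * μ)) * (G (ε i) * D i))
          = ((G s)⁻¹ * P.unif ^ (-(2 * μ))) * (G (ε i) * b i * D i) := fun i => by ring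
      rw [Finset.sum_congr rfl fun i _ => this i, ← Finset.mul_sum, hrel, mul_zero]
    have hm : ∀ i, (G s)⁻¹ * P.unif ^ (-(2 * μ)) * (G (ε i) * D i) ∈ P.O ∧
        P.rs ((G s)⁻¹ * P.unif ^ (-(2 * μ)) * (G (ε i) * D i)) = D' i := fun i => by
      by_cases h : ε i = s
      · have : (G s)⁻¹ * P.unif ^ (-(2 * μ)) * (G (ε i) * D i) = P.unif ^ (-(2 * μ)) * D i := by
          rw [h]
          have := hG s
          field_simp
        rw [this]
        exact ⟨(hsc i h).1, by simp [D', h]⟩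
      · have hD0 : D' i = 0 := by simp [D', h]
        rw [hD0]
        by_cases hz : D i = 0
        · rw [hz, mul_zero, mul_zero, P.rs_zero]
          exact ⟨P.O.zero_mem, rfl⟩
        · have h1 := hdiff i h hz
          have hne2 : (G s)⁻¹ * P.unif ^ (-(2 * μ)) * (G (ε i) * D i) ≠ 0 :=
            mul_ne_zero (mul_ne_zero (inv_ne_zero (hG s)) (zpow_ne_zero _ P.unif_ne))
              (mul_ne_zero (hG _) hz)
          have h2 : 0 < P.ord ((G s)⁻¹ * P.unif ^ (-(2 * μ)) * (G (ε i) * D i)) := by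
            rw [P.ord_mul (mul_ne_zero (inv_ne_zero (hG s)) (zpow_ne_zero _ P.unif_ne))
              (mul_ne_zero (hG _) hz), P.ord_mul (inv_ne_zero (hG s)) (zpow_ne_zero _ P.unif_ne),
              P.ord_mul (hG _) hz, P.ord_inv (hG s), P.ord_unif_zpow]
            omega
          exact ⟨(P.mem_iff hne2).2 h2.le, P.rs_eq_zero_of_ord_pos fun _ => h2⟩
    have h1 := congrArg P.rs h0
    rw [P.rs_zero, P.rs_sum _ fun i _ => P.O.mul_mem (hb i) (hm i).1] at h1
    rw [← h1]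
    exact Finset.sum_congr rfl fun i _ => by rw [P.rs_mul (hb i) (hm i).1, (hm i).2]
  · intro i j p q hpq
    by_cases hi : ε i = s
    · by_cases hj : ε j = s
      · have h1 : (P.unif ^ (-(2 * μ)) * D i) * (P.unif ^ (-(2 * μ)) * D j)
            = (P.unif ^ (-(2 * μ)) * p) ^ 2 + (P.unif ^ (-(2 * μ)) * q) ^ 2 := by
          have : (P.unif ^ (-(2 * μ)) * D i) * (P.unif ^ (-(2 * μ)) * D j)
            = (P.unif ^ (-(2 * μ))) ^ 2 * (D i * D j) := by ring
          rw [this, hpq]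
          ring
        have hmem := P.O.mul_mem (hsc i hi).1 (hsc j hj).1
        have key : P.unif ^ (-(2 * μ)) * p ∈ P.O ∧ P.unif ^ (-(2 * μ)) * q ∈ P.O := by
          by_cases hz : P.unif ^ (-(2 * μ)) * p = 0 ∧ P.unif ^ (-(2 * μ)) * q = 0
          · rw [hz.1, hz.2]
            exact ⟨P.O.zero_mem, P.O.zero_mem⟩
          · have hx : ∃ l, (![P.unif ^ (-(2 * μ)) * p, P.unif ^ (-(2 * μ)) * q] : Fin 2 → E) l ≠ 0 := by
              by_contra hc
              push Not at hc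
              exact hz ⟨by simpa using hc 0, by simpa using hc 1⟩
            obtain ⟨n, hn, -, hne3, ho⟩ := P.ord_sum_sq hk _ hx
            simp only [Fin.sum_univ_two, Matrix.cons_val_zero, Matrix.cons_val_one] at ho hne3
            rw [h1] at hmem
            have h4 := P.ord_nonneg_of_mem hmem hne3
            have hn0 := hn 0
            have hn1 := hn 1
            simp only [Matrix.cons_val_zero, Matrix.cons_val_one] at hn0 hn1
            exact ⟨P.mem_of_ord_nonneg fun h => by have := hn0 h; omega,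
              P.mem_of_ord_nonneg fun h => by have := hn1 h; omega⟩
        refine ⟨P.rs (P.unif ^ (-(2 * μ)) * p), P.rs (P.unif ^ (-(2 * μ)) * q), ?_⟩
        have hDi : D' i = P.rs (P.unif ^ (-(2 * μ)) * D i) := by simp [D', hi]
        have hDj : D' j = P.rs (P.unif ^ (-(2 * μ)) * D j) := by simp [D', hj]
        rw [hDi, hDj, ← P.rs_mul (hsc i hi).1 (hsc j hj).1, h1,
          P.rs_add (P.O.pow_mem key.1 2) (P.O.pow_mem key.2 2), P.rs_pow key.1, P.rs_pow key.2]
      · exact ⟨0, 0, by simp [D', hj]⟩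
    · exact ⟨0, 0, by simp [D', hi]⟩

end Pool.Agent.H45
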