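import Pool.Agent.H45.PlaceExists
import Pool.Agent.H45.Spec

/-!
Odd degree extensions stay formally real; small primes are not sums of two squares there.
-/

set_option linter.style.haveILetI false

namespace Pool.Agent.H45

open IsDedekindDomain NumberField

/-- every extension of odd degree is formally real -/
def OR (F : Type) [Field F] : Prop :=
  ∀ (E : Type) [Field E] [Algebra F E], Odd (Module.finrank F E) → FR E

theorem FR_of_ringHom_real {E : Type} [Field E] (f : E →+* ℝ) : FR E := by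
  intro m x hx i
  have h := congrArg f hx
  rw [map_sum, map_zero] at h
  simp only [map_pow] at h
  have h2 := (Finset.sum_eq_zero_iff_of_nonneg (fun j _ => sq_nonneg (f (x j)))).1 h i
    (Finset.mem_univ i)
  have h3 : f (x i) = 0 := by simpa using h2
  exact (map_eq_zero f).1 h3

theorem OR_rat : OR ℚ := by
  intro E _ iA hodd
  have hcz : CharZero E := algebraRat.charZero E
  obtain rfl : iA = DivisionRing.toRatAlgebra := Subsingleton.elim _ _
  haveI : FiniteDimensional ℚ E := Module.finite_of_finrank_pos hodd.pos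
  haveI : NumberField E := ⟨⟩
  have h := InfinitePlace.nrRealPlaces_pos_of_odd_finrank (K := E) hodd
  classical
  unfold InfinitePlace.nrRealPlaces at h
  obtain ⟨w, hw⟩ := Fintype.card_pos_iff.1 h
  exact FR_of_ringHom_real (InfinitePlace.embedding_of_isReal hw)

theorem OR_ratFunc {κ : Type} [Field κ] [CharZero κ] (hκ : OR κ) : OR (RatFunc κ) := by
  intro E _ _ hodd
  obtain ⟨k, i1, i2, P, hP1, -, -⟩ := exists_place hodd (1 : E) one_ne_zero
  have hk : FR k := hκ k hP1
  intro m x hx i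
  by_contra hne
  exact (P.ord_sum_sq hk x ⟨i, hne⟩).choose_spec.2.2.1 hx

theorem neg_one_not_sq_of_card {k : Type} [Field k] [Finite k] (hk : Nat.card k % 4 = 3) (x y : k)
    (h : x ^ 2 + y ^ 2 = 0) : x = 0 ∧ y = 0 := by
  haveI := Fintype.ofFinite k
  have h1 : ¬ IsSquare (-1 : k) := by
    rw [FiniteField.isSquare_neg_one_iff, not_not, ← Nat.card_eq_fintype_card]
    exact hk
  have hy : y = 0 := by
    by_contra hy
    apply h1
    refine ⟨x / y, ?_⟩
    field_simp
    linear_combination -h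
  subst hy
  refine ⟨?_, rfl⟩
  simpa using h

/-- order of a sum of two squares is even if `x² + y²` is anisotropic over the residue field -/
theorem Pl.ord_two_sq_even {E k : Type} [Field E] [Field k] (P : Pl E k)
    (hk : ∀ x y : k, x ^ 2 + y ^ 2 = 0 → x = 0 ∧ y = 0) (p q : E) (hpq : p ^ 2 + q ^ 2 ≠ 0) :
    Even (P.ord (p ^ 2 + q ^ 2)) := by
  have hne : ∃ i, (![p, q] : Fin 2 → E) i ≠ 0 := by
    by_contra hc
    push Not at hc
    have h0 : p = 0 := by simpa using hc 0
    have h1 : q = 0 := by simpa using hc 1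
    rw [h0, h1] at hpq
    exact hpq (by ring)
  obtain ⟨n, hn, i0, hi0, hin⟩ := P.exists_scale _ hne
  have hu := zpow_ne_zero (-n) P.unif_ne
  have hp : P.unif ^ (-n) * p ∈ P.O := P.scaled_mem (by simpa using hn 0)
  have hq : P.unif ^ (-n) * q ∈ P.O := P.scaled_mem (by simpa using hn 1)
  have h1 : P.rs ((P.unif ^ (-n) * p) ^ 2 + (P.unif ^ (-n) * q) ^ 2) ≠ 0 := by
    rw [P.rs_add (P.O.pow_mem hp 2) (P.O.pow_mem hq 2), P.rs_pow hp, P.rs_pow hq]
    intro h0
    obtain ⟨h2, h3⟩ := hk _ _ h0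
    have h4 := P.scaled_rs_ne hi0 hin
    fin_cases i0
    · exact h4 (by simpa using h2)
    · exact h4 (by simpa using h3)
  have h2 := P.ord_eq_zero_of_rs_ne
    (P.O.add_mem (P.O.pow_mem hp 2) (P.O.pow_mem hq 2)) h1
  have h3 : (P.unif ^ (-n) * p) ^ 2 + (P.unif ^ (-n) * q) ^ 2
      = (P.unif ^ (-n)) ^ 2 * (p ^ 2 + q ^ 2) := by ring
  rw [h3, P.ord_mul (pow_ne_zero _ hu) hpq, P.ord_pow hu, P.ord_unif_zpow] at h2
  push_cast at h2
  exact ⟨n, by omega⟩

/-- the height one prime of `ℤ` attached to a prime number -/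
noncomputable def intPrime (p : ℕ) [hp : Fact p.Prime] : HeightOneSpectrum ℤ where
  asIdeal := Ideal.span {(p : ℤ)}
  isPrime := (Ideal.span_singleton_prime (by exact_mod_cast hp.out.ne_zero)).2
    (Nat.prime_iff_prime_int.1 hp.out)
  ne_bot := by
    rw [Ne, Ideal.span_singleton_eq_bot]
    exact_mod_cast hp.out.ne_zero

theorem hord_intPrime (p : ℕ) [hp : Fact p.Prime] (m : ℤ) (hm : ¬ (p : ℤ) ∣ m) :
    hord ℚ (intPrime p) ((p * m : ℤ) : ℚ) = 1 := by
  have hp0 : (p : ℤ) ≠ 0 := by exact_mod_cast hp.out.ne_zero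
  have hm0 : m ≠ 0 := by
    rintro rfl
    exact hm (dvd_zero _)
  have h1 : hord ℚ (intPrime p) ((p : ℤ) : ℚ) = 1 := by
    unfold hord
    have : ((p : ℤ) : ℚ) = algebraMap ℤ ℚ (p : ℤ) := rfl
    rw [this, HeightOneSpectrum.valuation_of_algebraMap,
      HeightOneSpectrum.intValuation_singleton _ hp0 rfl]
    simp
  have h2 : hord ℚ (intPrime p) (m : ℚ) = 0 := by
    unfold hord
    have h3 : (m : ℚ) = algebraMap ℤ ℚ m := rfl
    have : (intPrime p).valuation ℚ (m : ℚ) = 1 := by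
      rw [h3, HeightOneSpectrum.valuation_eq_one_iff_notMem]
      exact fun h => hm (Ideal.mem_span_singleton.1 h)
    rw [this]
    simp
  push_cast
  have h4 := hord_mul (intPrime p) (x := ((p : ℤ) : ℚ)) (y := (m : ℚ)) (by exact_mod_cast hp0)
    (by exact_mod_cast hm0)
  rw [h1, h2] at h4
  push_cast at h4
  exact h4

/-- In a number field of odd degree, `p * m` (with `p ≡ 3 mod 4` not dividing `m`) times a nonzero
square is never a sum of two squares. -/
theorem not_two_sq (p : ℕ) [hp : Fact p.Prime] (hp4 : p % 4 = 3) (m : ℤ) (hm : ¬ (p : ℤ) ∣ m)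
    {E : Type} [Field E] [iA : Algebra ℚ E] (hodd : Odd (Module.finrank ℚ E)) (z : E) (hz : z ≠ 0)
    (a b : E) : ((p * m : ℤ) : E) * z ^ 2 ≠ a ^ 2 + b ^ 2 := by
  have hcz : CharZero E := algebraRat.charZero E
  obtain rfl : iA = DivisionRing.toRatAlgebra := Subsingleton.elim _ _
  haveI : FiniteDimensional ℚ E := Module.finite_of_finrank_pos hodd.pos
  haveI : NumberField E := ⟨⟩
  haveI : CharZero (FractionRing ℤ) :=
    (RingHom.charZero_iff (IsFractionRing.injective ℤ (FractionRing ℤ))).1 inferInstance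
  have hm0 : m ≠ 0 := by
    rintro rfl
    exact hm (dvd_zero _)
  have hc0 : ((p * m : ℤ) : E) ≠ 0 := by
    rw [Ne, Int.cast_eq_zero]
    exact mul_ne_zero (by exact_mod_cast hp.out.ne_zero) hm0
  have hcQ : ((p * m : ℤ) : ℚ) ≠ 0 := by
    rw [Ne, Int.cast_eq_zero]
    exact mul_ne_zero (by exact_mod_cast hp.out.ne_zero) hm0
  have hnorm : Odd (hord ℚ (intPrime p) (Algebra.norm ℚ ((p * m : ℤ) : E))) := by
    have h1 : ((p * m : ℤ) : E) = algebraMap ℚ E ((p * m : ℤ) : ℚ) := by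
      rw [map_intCast]
    rw [h1, Algebra.norm_algebraMap]
    have h2 : ∀ j : ℕ, hord ℚ (intPrime p) (((p * m : ℤ) : ℚ) ^ j) = j := by
      intro j
      induction j with
      | zero => unfold hord; simp
      | succ j ih =>
        rw [pow_succ, hord_mul _ (pow_ne_zero _ hcQ) hcQ, ih, hord_intPrime p m hm]
        push_cast
        ring
    rw [h2]
    exact_mod_cast hodd
  obtain ⟨v, hv1, hv2, hv3⟩ := exists_odd_above (A := ℤ) (S := 𝓞 E) (F := ℚ) (E := E)
    (intPrime p) _ hc0 hnorm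
  haveI hvm : v.asIdeal.IsMaximal := v.isPrime.isMaximal v.ne_bot
  haveI hpm : (intPrime p).asIdeal.IsMaximal := (intPrime p).isPrime.isMaximal (intPrime p).ne_bot
  haveI hlo : v.asIdeal.LiesOver (intPrime p).asIdeal := ⟨hv1.symm⟩
  letI : Field (𝓞 E ⧸ v.asIdeal) := Ideal.Quotient.field _
  let P : Pl E (𝓞 E ⧸ v.asIdeal) :=
    placeOf v (Ideal.Quotient.mk v.asIdeal) fun s => Ideal.Quotient.eq_zero_iff_mem
  have hcard : Nat.card (𝓞 E ⧸ v.asIdeal) % 4 = 3 := by
    have h1 := Ideal.cardQuot_pow_inertiaDeg (intPrime p).asIdeal v.asIdeal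
    rw [Submodule.cardQuot_apply, Submodule.cardQuot_apply] at h1
    have h2 : Nat.card (ℤ ⧸ (intPrime p).asIdeal) = p := by
      change Nat.card (ℤ ⧸ Ideal.span {(p : ℤ)}) = p
      rw [Nat.card_congr (Int.quotientSpanNatEquivZMod p).toEquiv, Nat.card_zmod]
    have h3 : Nat.card (𝓞 E ⧸ v.asIdeal) = p ^ v.asIdeal.inertiaDeg ℤ := by
      rw [← h2]
      exact h1.symm
    rw [h3]
    obtain ⟨r, hr⟩ := hv2
    rw [hr, pow_succ, pow_mul, Nat.mul_mod, Nat.pow_mod, Nat.pow_mod p 2, hp4]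
    norm_num
  haveI : Finite (𝓞 E ⧸ v.asIdeal) := by
    apply Nat.finite_of_card_ne_zero
    intro h0
    rw [h0] at hcard
    norm_num at hcard
  intro heq
  have hL : ((p * m : ℤ) : E) * z ^ 2 ≠ 0 := mul_ne_zero hc0 (pow_ne_zero _ hz)
  have h1 := P.ord_two_sq_even (neg_one_not_sq_of_card hcard) a b (heq ▸ hL)
  rw [← heq, P.ord_mul hc0 (pow_ne_zero _ hz), P.ord_pow hz] at h1
  have h2 : Odd (P.ord ((p * m : ℤ) : E)) := hv3
  obtain ⟨r, hr⟩ := h2
  obtain ⟨s, hs⟩ := h1
  simp only [Nat.cast_ofNat] at hs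
  omega

end Pool.Agent.H45
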