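import Mathlib

/-!
Discrete places of fields, in a form convenient for specialisation arguments.
-/

namespace Pool.Agent.H45

/-- A discrete place of `E` with values in `k`: an integer valued order function on nonzero
elements, its valuation ring `O`, a residue homomorphism and a uniformiser. -/
structure Pl (E k : Type) [Field E] [Field k] where
  ord : E → ℤ
  O : Subring E
  res : O →+* k
  unif : E
  unif_ne : unif ≠ 0
  ord_unif : ord unif = 1
  ord_mul : ∀ {x y : E}, x ≠ 0 → y ≠ 0 → ord (x * y) = ord x + ord y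
  mem_iff : ∀ {x : E}, x ≠ 0 → (x ∈ O ↔ 0 ≤ ord x)
  res_iff : ∀ x : O, (x : E) ≠ 0 → (res x = 0 ↔ 0 < ord (x : E))

/-- Formally real: a vanishing sum of squares has all its terms zero. -/
def FR (k : Type) [Field k] : Prop :=
  ∀ (m : ℕ) (x : Fin m → k), ∑ i, x i ^ 2 = 0 → ∀ i, x i = 0

namespace Pl

variable {E k : Type} [Field E] [Field k] (P : Pl E k)

theorem ord_one : P.ord 1 = 0 := by
  have h := P.ord_mul (x := 1) (y := 1) one_ne_zero one_ne_zero
  rw [mul_one] at h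
  omega

theorem ord_inv {x : E} (hx : x ≠ 0) : P.ord x⁻¹ = - P.ord x := by
  have h := P.ord_mul hx (inv_ne_zero hx)
  rw [mul_inv_cancel₀ hx, P.ord_one] at h
  omega

theorem ord_pow {x : E} (hx : x ≠ 0) (n : ℕ) : P.ord (x ^ n) = n * P.ord x := by
  induction n with
  | zero => simp [P.ord_one]
  | succ n ih =>
    rw [pow_succ, P.ord_mul (pow_ne_zero _ hx) hx, ih]
    push_cast
    ring

theorem ord_zpow {x : E} (hx : x ≠ 0) (n : ℤ) : P.ord (x ^ n) = n * P.ord x := by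
  cases n with
  | ofNat n => simpa using P.ord_pow hx n
  | negSucc n =>
    rw [zpow_negSucc, P.ord_inv (pow_ne_zero _ hx), P.ord_pow hx]
    simp only [Int.negSucc_eq]
    push_cast
    ring

theorem ord_unif_zpow (n : ℤ) : P.ord (P.unif ^ n) = n := by
  rw [P.ord_zpow P.unif_ne, P.ord_unif, mul_one]

theorem ord_neg {x : E} (hx : x ≠ 0) : P.ord (-x) = P.ord x := by
  have h1 : P.ord (-1) = 0 := by
    have h := P.ord_mul (x := -1) (y := -1) (by norm_num) (by norm_num)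
    rw [neg_one_mul, neg_neg, P.ord_one] at h
    omega
  rw [← neg_one_mul, P.ord_mul (by norm_num) hx, h1, zero_add]

theorem zero_mem : (0 : E) ∈ P.O := P.O.zero_mem

theorem mem_of_ord_nonneg {x : E} (hx : x ≠ 0 → 0 ≤ P.ord x) : x ∈ P.O := by
  by_cases h : x = 0
  · rw [h]; exact P.O.zero_mem
  · exact (P.mem_iff h).2 (hx h)

theorem ord_nonneg_of_mem {x : E} (h : x ∈ P.O) (hx : x ≠ 0) : 0 ≤ P.ord x :=
  (P.mem_iff hx).1 h

/-- residue of an element of the valuation ring, and `0` outside it -/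
noncomputable def rs (x : E) : k := by
  classical exact if h : x ∈ P.O then P.res ⟨x, h⟩ else 0

theorem rs_of_mem {x : E} (h : x ∈ P.O) : P.rs x = P.res ⟨x, h⟩ := by
  classical simp [rs, h]

theorem rs_add {x y : E} (hx : x ∈ P.O) (hy : y ∈ P.O) : P.rs (x + y) = P.rs x + P.rs y := by
  rw [P.rs_of_mem hx, P.rs_of_mem hy, P.rs_of_mem (P.O.add_mem hx hy), ← map_add]
  rfl

theorem rs_mul {x y : E} (hx : x ∈ P.O) (hy : y ∈ P.O) : P.rs (x * y) = P.rs x * P.rs y := by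
  rw [P.rs_of_mem hx, P.rs_of_mem hy, P.rs_of_mem (P.O.mul_mem hx hy), ← map_mul]
  rfl

theorem rs_zero : P.rs 0 = 0 := by
  rw [P.rs_of_mem P.O.zero_mem]
  exact map_zero P.res

theorem rs_one : P.rs 1 = 1 := by
  rw [P.rs_of_mem P.O.one_mem]
  exact map_one P.res

theorem rs_neg {x : E} (hx : x ∈ P.O) : P.rs (-x) = - P.rs x := by
  rw [P.rs_of_mem hx, P.rs_of_mem (P.O.neg_mem hx), ← map_neg]
  rfl

theorem rs_pow {x : E} (hx : x ∈ P.O) (n : ℕ) : P.rs (x ^ n) = P.rs x ^ n := by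
  rw [P.rs_of_mem hx, P.rs_of_mem (P.O.pow_mem hx n), ← map_pow]
  rfl

theorem rs_sum {ι : Type*} (s : Finset ι) {f : ι → E} (hf : ∀ i ∈ s, f i ∈ P.O) :
    P.rs (∑ i ∈ s, f i) = ∑ i ∈ s, P.rs (f i) := by
  classical
  induction s using Finset.induction_on with
  | empty => simp [P.rs_zero]
  | insert a s ha ih =>
    rw [Finset.sum_insert ha, Finset.sum_insert ha, P.rs_add (hf a (Finset.mem_insert_self a s))
      (P.O.sum_mem fun i hi => hf i (Finset.mem_insert_of_mem hi)),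
      ih fun i hi => hf i (Finset.mem_insert_of_mem hi)]

theorem rs_eq_zero_iff {x : E} (hx : x ∈ P.O) (h0 : x ≠ 0) : P.rs x = 0 ↔ 0 < P.ord x := by
  rw [P.rs_of_mem hx]
  exact P.res_iff ⟨x, hx⟩ h0

theorem ord_eq_zero_of_rs_ne {x : E} (hx : x ∈ P.O) (h : P.rs x ≠ 0) : P.ord x = 0 := by
  have h0 : x ≠ 0 := by
    rintro rfl
    exact h P.rs_zero
  have h1 := (P.mem_iff h0).1 hx
  have h2 := mt (P.rs_eq_zero_iff hx h0).2 h
  omega

theorem ne_zero_of_rs_ne {x : E} (h : P.rs x ≠ 0) : x ≠ 0 := by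
  rintro rfl
  exact h P.rs_zero

theorem rs_eq_zero_of_ord_pos {x : E} (h : x ≠ 0 → 0 < P.ord x) : P.rs x = 0 := by
  by_cases h0 : x = 0
  · rw [h0, P.rs_zero]
  · have hm : x ∈ P.O := (P.mem_iff h0).2 (h h0).le
    exact (P.rs_eq_zero_iff hm h0).2 (h h0)

/-- ultrametric inequality, in the form of a bound -/
theorem le_ord_add {x y : E} {n : ℤ} (hx : x ≠ 0 → n ≤ P.ord x) (hy : y ≠ 0 → n ≤ P.ord y)
    (hxy : x + y ≠ 0) : n ≤ P.ord (x + y) := by
  have hu := zpow_ne_zero (-n) P.unif_ne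
  have h1 : P.unif ^ (-n) * x ∈ P.O := P.mem_of_ord_nonneg fun h => by
    have hx0 : x ≠ 0 := right_ne_zero_of_mul h
    rw [P.ord_mul hu hx0, P.ord_unif_zpow]
    have := hx hx0
    omega
  have h2 : P.unif ^ (-n) * y ∈ P.O := P.mem_of_ord_nonneg fun h => by
    have hy0 : y ≠ 0 := right_ne_zero_of_mul h
    rw [P.ord_mul hu hy0, P.ord_unif_zpow]
    have := hy hy0
    omega
  have h3 := P.O.add_mem h1 h2
  rw [← mul_add] at h3
  have h4 := P.ord_nonneg_of_mem h3 (mul_ne_zero hu hxy)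
  rw [P.ord_mul hu hxy, P.ord_unif_zpow] at h4
  omega

/-- A nonzero finite family can be scaled by a power of the uniformiser so that it becomes
integral with a nonzero residue. -/
theorem exists_scale {ι : Type*} [Fintype ι] (x : ι → E) (hx : ∃ i, x i ≠ 0) :
    ∃ n : ℤ, (∀ i, x i ≠ 0 → n ≤ P.ord (x i)) ∧ (∃ i, x i ≠ 0 ∧ P.ord (x i) = n) := by
  classical
  obtain ⟨i0, hi0⟩ := hx
  let s : Finset ι := Finset.univ.filter fun i => x i ≠ 0
  have hs : s.Nonempty := ⟨i0, by simp [s, hi0]⟩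
  obtain ⟨j, hj, hmin⟩ := s.exists_min_image (fun i => P.ord (x i)) hs
  refine ⟨P.ord (x j), fun i hi => hmin i (by simp [s, hi]), j, ?_, rfl⟩
  simpa [s] using hj

theorem scaled_mem {x : E} {n : ℤ} (h : x ≠ 0 → n ≤ P.ord x) : P.unif ^ (-n) * x ∈ P.O :=
  P.mem_of_ord_nonneg fun h' => by
    have hx0 : x ≠ 0 := right_ne_zero_of_mul h'
    rw [P.ord_mul (zpow_ne_zero _ P.unif_ne) hx0, P.ord_unif_zpow]
    have := h hx0
    omega

theorem scaled_rs_ne {x : E} {n : ℤ} (hx : x ≠ 0) (h : P.ord x = n) :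
    P.rs (P.unif ^ (-n) * x) ≠ 0 := by
  have hne : P.unif ^ (-n) * x ≠ 0 := mul_ne_zero (zpow_ne_zero _ P.unif_ne) hx
  have ho : P.ord (P.unif ^ (-n) * x) = 0 := by
    rw [P.ord_mul (zpow_ne_zero _ P.unif_ne) hx, P.ord_unif_zpow]
    omega
  have hm : P.unif ^ (-n) * x ∈ P.O := (P.mem_iff hne).2 ho.ge
  intro hz
  have := (P.rs_eq_zero_iff hm hne).1 hz
  omega

theorem scaled_rs_eq_zero {x : E} {n : ℤ} (h : x ≠ 0 → n < P.ord x) :
    P.rs (P.unif ^ (-n) * x) = 0 :=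
  P.rs_eq_zero_of_ord_pos fun h' => by
    have hx0 : x ≠ 0 := right_ne_zero_of_mul h'
    rw [P.ord_mul (zpow_ne_zero _ P.unif_ne) hx0, P.ord_unif_zpow]
    have := h hx0
    omega

/-- order of a sum of squares when the residue field is formally real -/
theorem ord_sum_sq (hk : FR k) {m : ℕ} (x : Fin m → E) (hx : ∃ i, x i ≠ 0) :
    ∃ n : ℤ, (∀ i, x i ≠ 0 → n ≤ P.ord (x i)) ∧ (∃ i, x i ≠ 0 ∧ P.ord (x i) = n) ∧
      ∑ i, x i ^ 2 ≠ 0 ∧ P.ord (∑ i, x i ^ 2) = 2 * n := by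
  obtain ⟨n, hn, i0, hi0, hin⟩ := P.exists_scale x hx
  have hu := zpow_ne_zero (-n) P.unif_ne
  have hmem : ∀ i, P.unif ^ (-n) * x i ∈ P.O := fun i => P.scaled_mem (hn i)
  have hrs : ∑ i, (P.rs (P.unif ^ (-n) * x i)) ^ 2 ≠ 0 := by
    intro h
    exact P.scaled_rs_ne hi0 hin (hk m _ h i0)
  have h1 : P.rs (∑ i, (P.unif ^ (-n) * x i) ^ 2) ≠ 0 := by
    rw [P.rs_sum _ fun i _ => P.O.pow_mem (hmem i) 2]
    simpa only [P.rs_pow (hmem _)] using hrs
  have h2 : (∑ i, (P.unif ^ (-n) * x i) ^ 2) ∈ P.O := P.O.sum_mem fun i _ => P.O.pow_mem (hmem i) 2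
  have h3 := P.ord_eq_zero_of_rs_ne h2 h1
  have h4 : ∑ i, (P.unif ^ (-n) * x i) ^ 2 = (P.unif ^ (-n)) ^ 2 * ∑ i, x i ^ 2 := by
    rw [Finset.mul_sum]
    exact Finset.sum_congr rfl fun i _ => by ring
  have h5 : ∑ i, x i ^ 2 ≠ 0 := by
    intro h
    rw [h4, h, mul_zero] at h1
    exact h1 P.rs_zero
  refine ⟨n, hn, ⟨i0, hi0, hin⟩, h5, ?_⟩
  rw [h4, P.ord_mul (pow_ne_zero _ hu) h5, P.ord_pow hu, P.ord_unif_zpow] at h3
  push_cast at h3
  omega

end Pl

end Pool.Agent.H45
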