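import Pool.Agent.H45.Twist
import Pool.Agent.H45.Step

/-!
The parity lemma: existence of places of odd degree with a prescribed parity.
-/

set_option linter.style.haveILetI false

namespace Pool.Agent.H45

open IsDedekindDomain UniqueFactorizationMonoid Ideal Polynomial

theorem exists_odd_factor {κ : Type} [Field κ] : ∀ (n : ℕ) (g : κ[X]), g.natDegree = n → Odd n →
    ∃ (f : κ[X]) (m : ℕ) (g' : κ[X]), Irreducible f ∧ Odd f.natDegree ∧ Odd m ∧
      g = f ^ m * g' ∧ ¬ f ∣ g' := by
  intro n
  induction n using Nat.strong_induction_on with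
  | _ n ih =>
    intro g hg hn
    have hg0 : g ≠ 0 := by
      rintro rfl
      simp at hg
      subst hg
      simp at hn
    have hgu : ¬ IsUnit g := by
      intro h
      rw [natDegree_eq_zero_of_isUnit h] at hg
      subst hg
      simp at hn
    obtain ⟨f, hf, hfg⟩ := WfDvdMonoid.exists_irreducible_factor hgu hg0
    obtain ⟨m, g', hfg', hgm⟩ := WfDvdMonoid.max_power_factor' hg0 hf.not_isUnit
    have hg'0 : g' ≠ 0 := by
      rintro rfl
      rw [mul_zero] at hgm
      exact hg0 hgm
    have hm0 : m ≠ 0 := by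
      rintro rfl
      rw [pow_zero, one_mul] at hgm
      rw [hgm] at hfg
      exact hfg' hfg
    have hdeg : g.natDegree = m * f.natDegree + g'.natDegree := by
      rw [hgm, natDegree_mul (pow_ne_zero _ hf.ne_zero) hg'0, natDegree_pow]
    by_cases hodd : Odd f.natDegree ∧ Odd m
    · exact ⟨f, m, g', hf, hodd.1, hodd.2, hgm, hfg'⟩
    · have hev : Even (m * f.natDegree) := by
        rw [Nat.even_mul]
        by_contra hc
        push Not at hc
        rw [Nat.not_even_iff_odd, Nat.not_even_iff_odd] at hc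
        exact hodd ⟨hc.2, hc.1⟩
      have hfpos : 0 < f.natDegree := hf.natDegree_pos
      have hmf : 0 < m * f.natDegree := Nat.mul_pos (Nat.pos_of_ne_zero hm0) hfpos
      have hodd' : Odd g'.natDegree := by
        rw [hg] at hdeg
        rw [hdeg, Nat.odd_add'] at hn
        exact hn.2 hev
      obtain ⟨f1, m1, g1, h1, h2, h3, h4, h5⟩ := ih g'.natDegree (by omega) g' rfl hodd'
      refine ⟨f1, m1, f ^ m * g1, h1, h2, h3, ?_, ?_⟩
      · rw [hgm, h4]
        ring
      · intro h6
        rcases h1.prime.dvd_or_dvd h6 with h7 | h7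
        · have h8 := h1.prime.dvd_of_dvd_pow h7
          have h9 : f1 ∣ g' := by
            rw [h4]
            exact (dvd_pow_self f1 (by rintro rfl; simp at h3)).mul_right _
          exact hfg' (((h1.associated_of_dvd hf h8).symm.dvd).trans h9)
        · exact h5 h7

theorem hord_poly {κ : Type} [Field κ] (f : κ[X]) (hf : Irreducible f) (m : ℕ) (g' : κ[X])
    (hg' : ¬ f ∣ g') :
    hord (RatFunc κ) (polyPrime f hf) (algebraMap κ[X] (RatFunc κ) (f ^ m * g')) = m := by
  have hg0 : g' ≠ 0 := by
    rintro rfl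
    exact hg' (dvd_zero f)
  have h1 : hord (RatFunc κ) (polyPrime f hf) (algebraMap κ[X] (RatFunc κ) g') = 0 := by
    unfold hord
    have : (polyPrime f hf).valuation (RatFunc κ) (algebraMap κ[X] (RatFunc κ) g') = 1 := by
      rw [HeightOneSpectrum.valuation_eq_one_iff_notMem]
      exact fun h => hg' (Ideal.mem_span_singleton.1 h)
    rw [this]
    simp
  have h2 : hord (RatFunc κ) (polyPrime f hf) (algebraMap κ[X] (RatFunc κ) f) = 1 := by
    unfold hord
    rw [HeightOneSpectrum.valuation_of_algebraMap, HeightOneSpectrum.intValuation_singleton _ hf.ne_zero rfl]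
    simp
  have hne : algebraMap κ[X] (RatFunc κ) f ≠ 0 := by
    rw [Ne, FaithfulSMul.algebraMap_eq_zero_iff]
    exact hf.ne_zero
  have h3 : ∀ j : ℕ, hord (RatFunc κ) (polyPrime f hf) (algebraMap κ[X] (RatFunc κ) f ^ j) = j := by
    intro j
    induction j with
    | zero => unfold hord; simp
    | succ j ih =>
      rw [pow_succ, hord_mul _ (pow_ne_zero _ hne) hne, ih, h2]
      push_cast
      ring
  rw [map_mul, map_pow, hord_mul _ (pow_ne_zero _ hne)
    (by rw [Ne, FaithfulSMul.algebraMap_eq_zero_iff]; exact hg0), h1, h3, add_zero]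

/-- The data produced by the parity lemma. -/
def PlaceData (κ : Type) [Field κ] (E : Type) [Field E] [Algebra (RatFunc κ) E]
    (Q : ∀ (k : Type) [Field k], Pl E k → Prop) : Prop :=
  ∃ (k : Type) (_ : Field k) (_ : Algebra κ k) (P : Pl E k), Odd (Module.finrank κ k) ∧
    (∀ a : κ, algebraMap (RatFunc κ) E (RatFunc.C a) ∈ P.O ∧
      P.rs (algebraMap (RatFunc κ) E (RatFunc.C a)) = algebraMap κ k a) ∧ Q k P

theorem exists_place {κ : Type} [Field κ] [CharZero κ] {E : Type} [Field E]
    [Algebra (RatFunc κ) E] (hfin : Odd (Module.finrank (RatFunc κ) E)) (h : E) (hh : h ≠ 0) :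
    PlaceData κ E fun _ _ P => Odd (P.ord h + P.pole (algebraMap (RatFunc κ) E RatFunc.X)) := by
  have hfp : 0 < Module.finrank (RatFunc κ) E := hfin.pos
  haveI : FiniteDimensional (RatFunc κ) E := Module.finite_of_finrank_pos hfp
  set N := Algebra.norm (RatFunc κ) h with hN
  have hN0 : N ≠ 0 := by rwa [hN, Ne, Algebra.norm_eq_zero_iff]
  set n := Module.finrank (RatFunc κ) E with hn
  -- clear denominators by a square
  let q : RatFunc κ := algebraMap κ[X] (RatFunc κ) N.denom
  have hq0 : q ≠ 0 := by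
    simp only [q, Ne, FaithfulSMul.algebraMap_eq_zero_iff]
    exact N.denom_ne_zero
  let qE : E := algebraMap (RatFunc κ) E q
  have hqE : qE ≠ 0 := by
    simp only [qE, Ne, FaithfulSMul.algebraMap_eq_zero_iff]
    exact hq0
  let h1 : E := h * qE ^ 2
  have hh1 : h1 ≠ 0 := mul_ne_zero hh (pow_ne_zero _ hqE)
  have hpar : ∀ (k : Type) [Field k] (P : Pl E k), P.ord h1 = P.ord h + 2 * P.ord qE := by
    intro k _ P
    simp only [h1]
    rw [P.ord_mul hh (pow_ne_zero _ hqE), P.ord_pow hqE]
    push_cast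
    ring
  let g : κ[X] := N.num * N.denom ^ (2 * n - 1)
  have hNg : Algebra.norm (RatFunc κ) h1 = algebraMap κ[X] (RatFunc κ) g := by
    simp only [h1, g, qE]
    rw [map_mul, map_pow, Algebra.norm_algebraMap, ← hN, ← hn, map_mul, map_pow]
    have h2 : (q ^ n) ^ 2 = q * q ^ (2 * n - 1) := by
      rw [← pow_mul, ← pow_succ']
      congr 1
      omega
    rw [h2, ← mul_assoc]
    congr 1
    have := RatFunc.num_div_denom N
    rw [div_eq_iff hq0] at this
    exact this.symm
  have hg0 : g ≠ 0 := by
    have : Algebra.norm (RatFunc κ) h1 ≠ 0 := by rwa [Ne, Algebra.norm_eq_zero_iff]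
    intro h0
    rw [hNg, h0, map_zero] at this
    exact this rfl
  by_cases hd : Odd g.natDegree
  · -- a finite place
    obtain ⟨f, m, g', hf, hfd, hm, hgf, hfg'⟩ := exists_odd_factor g.natDegree g rfl hd
    obtain ⟨k, i1, i2, P, hP1, hP2, hP3, hP4, hP5⟩ := exists_place_fin f hf hfd h1 hh1 (by
      rw [hNg, hgf, hord_poly f hf m g' hfg']
      exact_mod_cast hm)
    refine ⟨k, i1, i2, P, hP1, hP2, ?_⟩
    have hpole : P.pole (algebraMap (RatFunc κ) E RatFunc.X) = 0 := by
      simp [Pl.pole, hP3]
    change Odd (P.ord h + P.pole (algebraMap (RatFunc κ) E RatFunc.X))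
    rw [hpole, add_zero]
    rw [hpar] at hP5
    rcases hP5 with ⟨r, hr⟩
    exact ⟨r - P.ord qE, by omega⟩
  · -- the infinite place
    rw [Nat.not_odd_iff_even] at hd
    let xE : E := algebraMap (RatFunc κ) E RatFunc.X
    have hxE : xE ≠ 0 := by
      simp only [xE, Ne, FaithfulSMul.algebraMap_eq_zero_iff]
      exact RatFunc.X_ne_zero
    have hXirr : Irreducible (X : κ[X]) := irreducible_X
    haveI : FiniteDimensional (RatFunc κ) (Tw E) := by
      apply Module.finite_of_finrank_pos
      rw [tw_finrank]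
      exact hfp
    have hnorm : Algebra.norm (RatFunc κ) ((toTw E).symm (h1 * xE))
        = algebraMap κ[X] (RatFunc κ) g.reverse * (RatFunc.X⁻¹) ^ (g.natDegree + n) := by
      rw [tw_norm, RingEquiv.apply_symm_apply, map_mul, hNg]
      simp only [xE]
      rw [Algebra.norm_algebraMap, map_mul, map_pow, sig_X, sig_algebraMap, evInv_apply, mul_assoc,
        ← pow_add]
    have hrev : ¬ (X : κ[X]) ∣ g.reverse := by
      rw [X_dvd_iff, coeff_zero_reverse]
      simpa using hg0
    have hXne : (RatFunc.X : RatFunc κ) ≠ 0 := RatFunc.X_ne_zero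
    have hrevne : algebraMap κ[X] (RatFunc κ) g.reverse ≠ 0 := by
      rw [Ne, FaithfulSMul.algebraMap_eq_zero_iff]
      intro h0
      rw [h0] at hrev
      exact hrev (dvd_zero _)
    have hordX : hord (RatFunc κ) (polyPrime X hXirr) (RatFunc.X) = 1 := by
      have := hord_poly (κ := κ) X hXirr 1 1 (fun h => hXirr.not_isUnit (isUnit_of_dvd_one h))
      rw [pow_one, mul_one, RatFunc.algebraMap_X] at this
      exact_mod_cast this
    have hordXinv : ∀ j : ℕ, hord (RatFunc κ) (polyPrime X hXirr) ((RatFunc.X⁻¹) ^ j) = - j := by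
      intro j
      have h2 : ∀ i : ℕ, hord (RatFunc κ) (polyPrime X hXirr) (RatFunc.X ^ i) = i := by
        intro i
        induction i with
        | zero => unfold hord; simp
        | succ i ih =>
          rw [pow_succ, hord_mul _ (pow_ne_zero _ hXne) hXne, ih, hordX]
          push_cast
          ring
      have h3 := hord_mul (polyPrime X hXirr) (x := (RatFunc.X : RatFunc κ) ^ j)
        (y := (RatFunc.X⁻¹) ^ j) (pow_ne_zero _ hXne) (pow_ne_zero _ (inv_ne_zero hXne))
      rw [← mul_pow, mul_inv_cancel₀ hXne, one_pow, h2] at h3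
      have h4 : hord (RatFunc κ) (polyPrime X hXirr) 1 = 0 := by unfold hord; simp
      rw [h4] at h3
      omega
    have hordrev : hord (RatFunc κ) (polyPrime X hXirr) (algebraMap κ[X] (RatFunc κ) g.reverse) = 0 := by
      have := hord_poly (κ := κ) X hXirr 0 g.reverse hrev
      rw [pow_zero, one_mul] at this
      exact_mod_cast this
    obtain ⟨k, i1, i2, P, hP1, hP2, hP3, hP4, hP5⟩ := exists_place_fin (E := Tw E) (X : κ[X]) hXirr
      (by simp) ((toTw E).symm (h1 * xE)) (by simpa using ⟨hh1, hxE⟩) (by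
        rw [hnorm, hord_mul _ hrevne (pow_ne_zero _ (inv_ne_zero hXne)), hordrev, hordXinv, zero_add]
        have : Odd ((g.natDegree + n : ℕ) : ℤ) := by
          rw [Int.odd_coe_nat]
          exact hd.add_odd hfin
        exact this.neg)
    refine ⟨k, i1, i2, P.map (toTw E), hP1, ?_, ?_⟩
    · intro a
      have hc : (toTw E).symm (algebraMap (RatFunc κ) E (RatFunc.C a))
          = algebraMap (RatFunc κ) (Tw E) (RatFunc.C a) := by
        rw [RingEquiv.symm_apply_eq, tw_algebraMap, sig_C]
      refine ⟨?_, ?_⟩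
      · change (toTw E).symm (algebraMap (RatFunc κ) E (RatFunc.C a)) ∈ P.O
        rw [hc]
        exact (hP2 a).1
      · rw [Pl.map_rs, hc]
        exact (hP2 a).2
    · have hx' : algebraMap (RatFunc κ) (Tw E) (algebraMap κ[X] (RatFunc κ) X) = (toTw E).symm xE⁻¹ := by
        rw [RatFunc.algebraMap_X, RingEquiv.eq_symm_apply, tw_algebraMap, sig_X, map_inv₀]
      rw [hx'] at hP4
      have hP4' : 0 < (P.map (toTw E)).ord xE⁻¹ := hP4
      rw [Pl.ord_inv _ hxE] at hP4'
      have hnotin : xE ∉ (P.map (toTw E)).O := by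
        intro hin
        have := (P.map (toTw E)).ord_nonneg_of_mem hin hxE
        omega
      have hpole : (P.map (toTw E)).pole xE = (P.map (toTw E)).ord xE := by
        simp [Pl.pole, hnotin]
      have hP5' : Odd ((P.map (toTw E)).ord (h1 * xE)) := hP5
      rw [Pl.ord_mul _ hh1 hxE, hpar] at hP5'
      change Odd ((P.map (toTw E)).ord h + (P.map (toTw E)).pole xE)
      rw [hpole]
      obtain ⟨r, hr⟩ := hP5'
      exact ⟨r - (P.map (toTw E)).ord qE, by omega⟩

end Pool.Agent.H45
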