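import Pool.Agent.H45.NormParity

/-!
Places of odd degree of finite extensions of rational function fields, above finite primes.
-/

set_option linter.style.haveILetI false

namespace Pool.Agent.H45

open IsDedekindDomain UniqueFactorizationMonoid Ideal Polynomial

/-- the height one prime attached to an irreducible polynomial -/
noncomputable def polyPrime {κ : Type} [Field κ] (f : κ[X]) (hf : Irreducible f) :
    HeightOneSpectrum κ[X] where
  asIdeal := Ideal.span {f}
  isPrime := (Ideal.span_singleton_prime hf.ne_zero).2 hf.prime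
  ne_bot := by
    rw [Ne, Ideal.span_singleton_eq_bot]
    exact hf.ne_zero

theorem exists_place_fin {κ : Type} [Field κ] [CharZero κ] {E : Type} [Field E]
    [Algebra (RatFunc κ) E] [FiniteDimensional (RatFunc κ) E] (f : κ[X]) (hf : Irreducible f)
    (hfd : Odd f.natDegree) (x : E) (hx : x ≠ 0)
    (hodd : Odd (hord (RatFunc κ) (polyPrime f hf) (Algebra.norm (RatFunc κ) x))) :
    ∃ (k : Type) (_ : Field k) (_ : Algebra κ k) (P : Pl E k), Odd (Module.finrank κ k) ∧
      (∀ a : κ, algebraMap (RatFunc κ) E (RatFunc.C a) ∈ P.O ∧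
        P.rs (algebraMap (RatFunc κ) E (RatFunc.C a)) = algebraMap κ k a) ∧
      algebraMap (RatFunc κ) E RatFunc.X ∈ P.O ∧
      0 < P.ord (algebraMap (RatFunc κ) E (algebraMap κ[X] (RatFunc κ) f)) ∧
      Odd (P.ord x) := by
  letI : Algebra κ[X] E := ((algebraMap (RatFunc κ) E).comp (algebraMap κ[X] (RatFunc κ))).toAlgebra
  haveI : IsScalarTower κ[X] (RatFunc κ) E := IsScalarTower.of_algebraMap_eq fun _ => rfl
  haveI : CharZero (RatFunc κ) := (RingHom.charZero_iff (algebraMap κ (RatFunc κ)).injective).1 inferInstance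
  haveI : Algebra.IsSeparable (RatFunc κ) E := inferInstance
  let S := integralClosure κ[X] E
  haveI : IsDedekindDomain S := integralClosure.isDedekindDomain κ[X] (RatFunc κ) E
  haveI : IsFractionRing S E := integralClosure.isFractionRing_of_finite_extension (RatFunc κ) E
  haveI : Module.Finite κ[X] S := IsIntegralClosure.finite κ[X] (RatFunc κ) E S
  haveI : CharZero (FractionRing κ[X]) :=
    (RingHom.charZero_iff (IsFractionRing.injective κ[X] (FractionRing κ[X]))).1 inferInstance
  haveI : Module.IsTorsionFree κ[X] E := .trans_faithfulSMul κ[X] (RatFunc κ) E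
  haveI : Module.IsTorsionFree κ[X] S := S.toSubmodule.instIsTorsionFree
  obtain ⟨v, hv1, hv2, hv3⟩ := exists_odd_above (A := κ[X]) (S := S) (F := RatFunc κ) (E := E)
    (polyPrime f hf) x hx hodd
  haveI hvm : v.asIdeal.IsMaximal := v.isPrime.isMaximal v.ne_bot
  haveI hpm : (polyPrime f hf).asIdeal.IsMaximal :=
    (polyPrime f hf).isPrime.isMaximal (polyPrime f hf).ne_bot
  haveI hlo : v.asIdeal.LiesOver (polyPrime f hf).asIdeal := ⟨hv1.symm⟩
  letI : Field (κ[X] ⧸ (polyPrime f hf).asIdeal) := Ideal.Quotient.field _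
  letI : Field (S ⧸ v.asIdeal) := Ideal.Quotient.field _
  letI : Algebra κ (S ⧸ v.asIdeal) :=
    ((algebraMap (κ[X] ⧸ (polyPrime f hf).asIdeal) (S ⧸ v.asIdeal)).comp
      (algebraMap κ (κ[X] ⧸ (polyPrime f hf).asIdeal))).toAlgebra
  haveI : IsScalarTower κ (κ[X] ⧸ (polyPrime f hf).asIdeal) (S ⧸ v.asIdeal) :=
    IsScalarTower.of_algebraMap_eq fun _ => rfl
  refine ⟨S ⧸ v.asIdeal, inferInstance, inferInstance,
    placeOf v (Ideal.Quotient.mk v.asIdeal) fun s => Ideal.Quotient.eq_zero_iff_mem, ?_, ?_, ?_, ?_, ?_⟩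
  · rw [← Module.finrank_mul_finrank κ (κ[X] ⧸ (polyPrime f hf).asIdeal) (S ⧸ v.asIdeal),
      ← Ideal.inertiaDeg_eq_of_isMaximal (polyPrime f hf).asIdeal v.asIdeal]
    refine Odd.mul ?_ hv2
    have : Module.finrank κ (κ[X] ⧸ (polyPrime f hf).asIdeal) = f.natDegree :=
      finrank_quotient_span_eq_natDegree
    rw [this]
    exact hfd
  · intro a
    have h1 : algebraMap (RatFunc κ) E (RatFunc.C a) = algebraMap S E (algebraMap κ[X] S (C a)) := by
      rw [← IsScalarTower.algebraMap_apply κ[X] S E, IsScalarTower.algebraMap_apply κ[X] (RatFunc κ) E,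
        RatFunc.algebraMap_C]
    rw [h1]
    refine ⟨placeOf_mem v _ _ _, ?_⟩
    rw [placeOf_rs]
    rfl
  · have h1 : algebraMap (RatFunc κ) E RatFunc.X = algebraMap S E (algebraMap κ[X] S X) := by
      rw [← IsScalarTower.algebraMap_apply κ[X] S E, IsScalarTower.algebraMap_apply κ[X] (RatFunc κ) E,
        RatFunc.algebraMap_X]
    rw [h1]
    exact placeOf_mem v _ _ _
  · have h1 : algebraMap (RatFunc κ) E (algebraMap κ[X] (RatFunc κ) f)
        = algebraMap S E (algebraMap κ[X] S f) := by
      rw [← IsScalarTower.algebraMap_apply κ[X] S E, IsScalarTower.algebraMap_apply κ[X] (RatFunc κ) E]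
    have hf0 : algebraMap S E (algebraMap κ[X] S f) ≠ 0 := by
      rw [← h1, Ne, FaithfulSMul.algebraMap_eq_zero_iff, FaithfulSMul.algebraMap_eq_zero_iff]
      exact hf.ne_zero
    rw [h1, placeOf_ord, hord_pos_iff v hf0, HeightOneSpectrum.valuation_lt_one_iff_mem]
    have : f ∈ v.asIdeal.under κ[X] := by
      rw [hv1]
      exact Ideal.mem_span_singleton_self f
    exact this
  · exact hv3

end Pool.Agent.H45
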