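import Pool.Agent.H45.Place

/-!
Discrete places attached to height one primes of Dedekind domains.
-/

namespace Pool.Agent.H45

open IsDedekindDomain WithZero

/-- The order function of a height one prime. -/
noncomputable def hord {S : Type} [CommRing S] [IsDedekindDomain S] (E : Type) [Field E]
    [Algebra S E] [IsFractionRing S E] (v : HeightOneSpectrum S) (x : E) : ℤ :=
  - WithZero.log (v.valuation E x)

section

variable {S : Type} [CommRing S] [IsDedekindDomain S] {E : Type} [Field E]
    [Algebra S E] [IsFractionRing S E] (v : HeightOneSpectrum S)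

theorem hord_mul {x y : E} (hx : x ≠ 0) (hy : y ≠ 0) :
    hord E v (x * y) = hord E v x + hord E v y := by
  unfold hord
  rw [map_mul, WithZero.log_mul ((Valuation.ne_zero_iff _).2 hx) ((Valuation.ne_zero_iff _).2 hy)]
  ring

theorem hord_nonneg_iff {x : E} (hx : x ≠ 0) : 0 ≤ hord E v x ↔ v.valuation E x ≤ 1 := by
  unfold hord
  rw [neg_nonneg, WithZero.log_le_iff_le_exp ((Valuation.ne_zero_iff _).2 hx)]
  simp

theorem hord_pos_iff {x : E} (hx : x ≠ 0) : 0 < hord E v x ↔ v.valuation E x < 1 := by
  unfold hord
  rw [neg_pos, WithZero.log_lt_iff_lt_exp ((Valuation.ne_zero_iff _).2 hx)]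
  simp

theorem mem_atPrime_iff (x : E) :
    x ∈ (HeightOneSpectrum.valuationSubringAtPrime E v).toSubring ↔ v.valuation E x ≤ 1 := by
  rw [HeightOneSpectrum.valuationSubringAtPrime_eq_valuationSubring]
  rfl

/-- The place attached to a height one prime `v` of `S` and a ring hom from `S` to a field with
kernel `v`. -/
noncomputable def placeOf {k : Type} [Field k] (f : S →+* k)
    (hf : ∀ s : S, f s = 0 ↔ s ∈ v.asIdeal) : Pl E k where
  ord := hord E v
  O := (HeightOneSpectrum.valuationSubringAtPrime E v).toSubring
  res := IsLocalization.lift (M := v.asIdeal.primeCompl)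
    (S := HeightOneSpectrum.valuationSubringAtPrime E v) (g := f)
    (fun y => IsUnit.mk0 _ fun h => y.2 ((hf _).1 h))
  unif := Classical.choose (v.valuation_exists_uniformizer E)
  unif_ne := v.valuation_uniformizer_ne_zero E
  ord_unif := by
    unfold hord
    rw [Classical.choose_spec (v.valuation_exists_uniformizer E)]
    simp
  ord_mul := hord_mul v
  mem_iff := fun {x} hx => by rw [hord_nonneg_iff v hx, mem_atPrime_iff]
  res_iff := fun x hx => by
    obtain ⟨⟨a, d⟩, had⟩ := IsLocalization.surj v.asIdeal.primeCompl
      (S := HeightOneSpectrum.valuationSubringAtPrime E v) x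
    rw [hord_pos_iff v hx]
    have hd : f d ≠ 0 := fun h => d.2 ((hf _).1 h)
    have h1 := congrArg (IsLocalization.lift (M := v.asIdeal.primeCompl)
      (S := HeightOneSpectrum.valuationSubringAtPrime E v) (g := f)
      (fun y => IsUnit.mk0 _ fun h => y.2 ((hf _).1 h))) had
    rw [map_mul, IsLocalization.lift_eq, IsLocalization.lift_eq] at h1
    have h2 : (x : E) * algebraMap S E d = algebraMap S E a := by
      have := congrArg (algebraMap (HeightOneSpectrum.valuationSubringAtPrime E v) E) had
      rw [map_mul, ← IsScalarTower.algebraMap_apply, ← IsScalarTower.algebraMap_apply] at this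
      exact this
    have h3 : v.valuation E (x : E) = v.valuation E (algebraMap S E a) := by
      rw [← h2, map_mul]
      have : v.valuation E (algebraMap S E d) = 1 := by
        rw [HeightOneSpectrum.valuation_eq_one_iff_notMem]
        exact d.2
      rw [this, mul_one]
    rw [h3, HeightOneSpectrum.valuation_lt_one_iff_mem, ← hf]
    constructor
    · intro h
      rw [h, zero_mul] at h1
      exact h1.symm
    · intro h
      rw [h] at h1
      exact (mul_eq_zero.1 h1).resolve_right hd

theorem placeOf_ord {k : Type} [Field k] (f : S →+* k)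
    (hf : ∀ s : S, f s = 0 ↔ s ∈ v.asIdeal) (x : E) : (placeOf (E := E) v f hf).ord x = hord E v x :=
  rfl

theorem placeOf_mem {k : Type} [Field k] (f : S →+* k)
    (hf : ∀ s : S, f s = 0 ↔ s ∈ v.asIdeal) (s : S) :
    algebraMap S E s ∈ (placeOf (E := E) v f hf).O := by
  change algebraMap S E s ∈ (HeightOneSpectrum.valuationSubringAtPrime E v).toSubring
  rw [mem_atPrime_iff]
  exact v.valuation_le_one s

theorem placeOf_rs {k : Type} [Field k] (f : S →+* k)
    (hf : ∀ s : S, f s = 0 ↔ s ∈ v.asIdeal) (s : S) :
    (placeOf (E := E) v f hf).rs (algebraMap S E s) = f s := by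
  rw [Pl.rs_of_mem _ (placeOf_mem v f hf s)]
  change IsLocalization.lift (M := v.asIdeal.primeCompl)
    (S := HeightOneSpectrum.valuationSubringAtPrime E v) (g := f)
    (fun y => IsUnit.mk0 _ fun h => y.2 ((hf _).1 h)) (algebraMap S _ s) = f s
  rw [IsLocalization.lift_eq]

end

end Pool.Agent.H45
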