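import Pool.Agent.H45.PlaceFin

/-!
The involution `X ↦ X⁻¹` of a rational function field and the twisted algebra structure.
-/

set_option linter.style.haveILetI false

namespace Pool.Agent.H45

open IsDedekindDomain UniqueFactorizationMonoid Ideal Polynomial

variable {κ : Type} [Field κ]

/-- evaluation of polynomials at `X⁻¹` -/
noncomputable def evInv (κ : Type) [Field κ] : κ[X] →+* RatFunc κ :=
  eval₂RingHom (RatFunc.C) (RatFunc.X)⁻¹

theorem evInv_apply (p : κ[X]) :
    evInv κ p = algebraMap κ[X] (RatFunc κ) p.reverse * (RatFunc.X⁻¹) ^ p.natDegree := by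
  letI : Invertible (RatFunc.X⁻¹ : RatFunc κ) :=
    ⟨RatFunc.X, mul_inv_cancel₀ RatFunc.X_ne_zero, inv_mul_cancel₀ RatFunc.X_ne_zero⟩
  have h := eval₂_reverse_mul_pow (RatFunc.C : κ →+* RatFunc κ) (RatFunc.X⁻¹) p
  have h2 : (⅟(RatFunc.X⁻¹) : RatFunc κ) = RatFunc.X := rfl
  rw [h2] at h
  have h3 : eval₂ (RatFunc.C : κ →+* RatFunc κ) RatFunc.X p.reverse
      = algebraMap κ[X] (RatFunc κ) p.reverse := by
    induction p.reverse using Polynomial.induction_on' with
    | add p q hp hq => rw [eval₂_add, hp, hq, map_add]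
    | monomial n a =>
      rw [eval₂_monomial, ← C_mul_X_pow_eq_monomial, map_mul, map_pow, RatFunc.algebraMap_C,
        RatFunc.algebraMap_X]
  rw [h3] at h
  exact h.symm

theorem evInv_ne_zero {p : κ[X]} (hp : p ≠ 0) : evInv κ p ≠ 0 := by
  rw [evInv_apply]
  refine mul_ne_zero ?_ (pow_ne_zero _ (inv_ne_zero RatFunc.X_ne_zero))
  rw [Ne, FaithfulSMul.algebraMap_eq_zero_iff, reverse_eq_zero]
  exact hp

/-- the substitution `X ↦ X⁻¹` -/
noncomputable def sig (κ : Type) [Field κ] : RatFunc κ →+* RatFunc κ :=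
  RatFunc.liftRingHom (evInv κ) fun p hp => by
    rw [Submonoid.mem_comap]
    exact mem_nonZeroDivisors_of_ne_zero (evInv_ne_zero (nonZeroDivisors.ne_zero hp))

theorem sig_algebraMap (p : κ[X]) : sig κ (algebraMap κ[X] (RatFunc κ) p) = evInv κ p := by
  have h := RatFunc.liftRingHom_apply_div (evInv κ) (fun p hp => by
    rw [Submonoid.mem_comap]
    exact mem_nonZeroDivisors_of_ne_zero (evInv_ne_zero (nonZeroDivisors.ne_zero hp))) p 1
  rw [map_one, map_one, div_one, div_one] at h
  exact h

theorem sig_C (a : κ) : sig κ (RatFunc.C a) = RatFunc.C a := by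
  rw [← RatFunc.algebraMap_C, sig_algebraMap]
  simp [evInv]

theorem sig_X : sig κ RatFunc.X = RatFunc.X⁻¹ := by
  rw [← RatFunc.algebraMap_X, sig_algebraMap]
  simp [evInv]

theorem sig_sig (r : RatFunc κ) : sig κ (sig κ r) = r := by
  have h : ((sig κ).comp (sig κ)).comp (algebraMap κ[X] (RatFunc κ)) = algebraMap κ[X] (RatFunc κ) := by
    ext a
    · simp [RatFunc.algebraMap_C, sig_C]
    · simp [RatFunc.algebraMap_X, sig_X]
  have h2 : (sig κ).comp (sig κ) = RingHom.id _ :=
    IsLocalization.ringHom_ext (nonZeroDivisors κ[X]) (by rw [h]; rfl)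
  exact congrArg (fun f => f r) h2

/-- `X ↦ X⁻¹` as a ring equivalence -/
noncomputable def sigE (κ : Type) [Field κ] : RatFunc κ ≃+* RatFunc κ :=
  RingEquiv.ofRingHom (sig κ) (sig κ) (RingHom.ext sig_sig) (RingHom.ext sig_sig)

/-- twisted copy of an extension of a rational function field -/
def Tw (E : Type) : Type := E

noncomputable instance (E : Type) [Field E] : Field (Tw E) := inferInstanceAs (Field E)

noncomputable instance twAlg (E : Type) [Field E] [Algebra (RatFunc κ) E] :
    Algebra (RatFunc κ) (Tw E) :=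
  (((algebraMap (RatFunc κ) E).comp (sig κ)) : RatFunc κ →+* Tw E).toAlgebra

/-- identity map to the twisted copy -/
def toTw (E : Type) [Field E] : Tw E ≃+* E := RingEquiv.refl E

theorem tw_algebraMap (E : Type) [Field E] [Algebra (RatFunc κ) E] (r : RatFunc κ) :
    toTw E (algebraMap (RatFunc κ) (Tw E) r) = algebraMap (RatFunc κ) E (sig κ r) := rfl

theorem tw_finrank (E : Type) [Field E] [Algebra (RatFunc κ) E] :
    Module.finrank (RatFunc κ) (Tw E) = Module.finrank (RatFunc κ) E :=
  Algebra.finrank_eq_of_equiv_equiv (sigE κ) (toTw E) (by ext r; rfl)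

theorem tw_norm (E : Type) [Field E] [Algebra (RatFunc κ) E] (x : Tw E) :
    Algebra.norm (RatFunc κ) x = sig κ (Algebra.norm (RatFunc κ) (toTw E x)) :=
  Algebra.norm_eq_of_equiv_equiv (sigE κ) (toTw E) (by ext r; rfl) x

/-- transport of a place along a ring equivalence -/
noncomputable def Pl.map {E E' k : Type} [Field E] [Field E'] [Field k] (P : Pl E' k) (e : E' ≃+* E) :
    Pl E k where
  ord x := P.ord (e.symm x)
  O := P.O.comap (e.symm : E →+* E')
  res := P.res.comp ((e.symm : E →+* E').restrict (P.O.comap (e.symm : E →+* E')) P.O fun _ h => h)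
  unif := e P.unif
  unif_ne := by simpa using P.unif_ne
  ord_unif := by simpa using P.ord_unif
  ord_mul := fun {x y} hx hy => by
    rw [map_mul]
    exact P.ord_mul (by simpa using hx) (by simpa using hy)
  mem_iff := fun {x} hx => P.mem_iff (by simpa using hx)
  res_iff := fun x hx => P.res_iff _ (by simpa using hx)

theorem Pl.map_rs {E E' k : Type} [Field E] [Field E'] [Field k] (P : Pl E' k) (e : E' ≃+* E)
    (x : E) : (P.map e).rs x = P.rs (e.symm x) := by
  by_cases h : e.symm x ∈ P.O
  · rw [P.rs_of_mem h, (P.map e).rs_of_mem (x := x) h]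
    rfl
  · have h' : x ∉ (P.map e).O := h
    simp [Pl.rs, h, h']

end Pool.Agent.H45
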